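import Mathlib

/-!
Finite subgroups of a group of exponent 2 and the inversion over spanning sets.
-/

namespace W92892c

open Finset

variable {D : Type*} [AddCommGroup D] [DecidableEq D]

/-- All subset sums. -/
def cl (S : Finset D) : Finset D := S.powerset.image (fun T => ∑ v ∈ T, v)

/-- Finite set containing `0` and closed under addition. -/
def IsSub (W : Finset D) : Prop := 0 ∈ W ∧ ∀ u ∈ W, ∀ v ∈ W, u + v ∈ W

lemma mem_cl {S : Finset D} {x : D} : x ∈ cl S ↔ ∃ T ⊆ S, ∑ v ∈ T, v = x := by
  unfold cl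
  simp only [Finset.mem_image, Finset.mem_powerset]

lemma zero_mem_cl (S : Finset D) : (0 : D) ∈ cl S :=
  mem_cl.2 ⟨∅, Finset.empty_subset _, by simp⟩

lemma subset_cl (S : Finset D) : S ⊆ cl S := fun s hs =>
  mem_cl.2 ⟨{s}, by simpa using hs, by simp⟩

lemma sum_symmDiff (h2 : ∀ d : D, d + d = 0) (T T' : Finset D) :
    ∑ v ∈ symmDiff T T', v = ∑ v ∈ T, v + ∑ v ∈ T', v := by
  have h1 : ∑ v ∈ T, v = ∑ v ∈ T \ T', v + ∑ v ∈ T ∩ T', v := by
    rw [add_comm]
    exact (Finset.sum_inter_add_sum_sdiff T T' (fun v => v)).symm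
  have h3 : ∑ v ∈ T', v = ∑ v ∈ T' \ T, v + ∑ v ∈ T ∩ T', v := by
    rw [Finset.inter_comm, add_comm]
    exact (Finset.sum_inter_add_sum_sdiff T' T (fun v => v)).symm
  have h4 : symmDiff T T' = (T \ T') ∪ (T' \ T) := rfl
  have h5 : Disjoint (T \ T') (T' \ T) := by
    rw [Finset.disjoint_left]
    intro x hx hx'
    rw [Finset.mem_sdiff] at hx hx'
    exact hx.2 hx'.1
  rw [h4, Finset.sum_union h5, h1, h3]
  have h6 := h2 (∑ v ∈ T ∩ T', v)
  calc ∑ v ∈ T \ T', v + ∑ v ∈ T' \ T, v
      = ∑ v ∈ T \ T', v + ∑ v ∈ T' \ T, v + 0 := by rw [add_zero]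
    _ = ∑ v ∈ T \ T', v + ∑ v ∈ T' \ T, v + (∑ v ∈ T ∩ T', v + ∑ v ∈ T ∩ T', v) := by rw [h6]
    _ = _ := by abel

lemma isSub_cl (h2 : ∀ d : D, d + d = 0) (S : Finset D) : IsSub (cl S) := by
  refine ⟨zero_mem_cl S, ?_⟩
  intro u hu v hv
  obtain ⟨T, hT, rfl⟩ := mem_cl.1 hu
  obtain ⟨T', hT', rfl⟩ := mem_cl.1 hv
  refine mem_cl.2 ⟨symmDiff T T', ?_, sum_symmDiff h2 T T'⟩
  intro x hx
  rw [Finset.mem_symmDiff] at hx
  rcases hx with hx | hx
  · exact hT hx.1
  · exact hT' hx.1

lemma cl_subset {S W : Finset D} (hW : IsSub W) (hS : S ⊆ W) : cl S ⊆ W := by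
  intro x hx
  obtain ⟨T, hT, rfl⟩ := mem_cl.1 hx
  clear hx
  induction T using Finset.induction_on with
  | empty => simpa using hW.1
  | insert s T hs ih =>
    rw [Finset.sum_insert hs]
    exact hW.2 _ (hS (hT (Finset.mem_insert_self _ _))) _
      (ih ((Finset.subset_insert _ _).trans hT))

lemma card_cl_le (S : Finset D) : (cl S).card ≤ 2 ^ S.card := by
  unfold cl
  exact Finset.card_image_le.trans (by rw [Finset.card_powerset])

lemma cl_empty : cl (∅ : Finset D) = {0} := by
  ext x
  rw [mem_cl, Finset.mem_singleton]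
  constructor
  · rintro ⟨T, hT, rfl⟩
    rw [Finset.subset_empty.1 hT]; simp
  · rintro rfl
    exact ⟨∅, Finset.empty_subset _, by simp⟩

/-- Inversion over spanning sets. -/
theorem psi_zero (h2 : ∀ d : D, d + d = 0) (c : Finset D → ℂ) (V : Finset D)
    (h : ∀ W ⊆ V, IsSub W → ∑ S ∈ (W.erase 0).powerset, c S = c ∅) :
    ∀ (n : ℕ) (W : Finset D), W.card ≤ n → W ⊆ V → IsSub W → W ≠ {0} →
      ∑ S ∈ (W.erase 0).powerset.filter (fun S => cl S = W), c S = 0 := by
  intro n
  induction n with
  | zero =>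
    intro W hW _ hsub _
    exact absurd (Finset.card_pos.2 ⟨0, hsub.1⟩) (by omega)
  | succ n ih =>
    intro W hWn hWV hsub hne
    have hmaps : ∀ S ∈ (W.erase 0).powerset, cl S ∈ (W.erase 0).powerset.image cl :=
      fun S hS => Finset.mem_image_of_mem _ hS
    have hfib := Finset.sum_fiberwise_of_maps_to hmaps c
    rw [h W hWV hsub] at hfib
    -- inner sums
    have hmem0 : ({0} : Finset D) ∈ (W.erase 0).powerset.image cl :=
      Finset.mem_image.2 ⟨∅, by simp, cl_empty⟩
    have hspan : cl (W.erase 0) = W := by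
      apply Finset.Subset.antisymm (cl_subset hsub (Finset.erase_subset _ _))
      intro x hx
      by_cases hx0 : x = 0
      · rw [hx0]; exact zero_mem_cl _
      · exact subset_cl _ (Finset.mem_erase.2 ⟨hx0, hx⟩)
    have hmemW : W ∈ (W.erase 0).powerset.image cl :=
      Finset.mem_image.2 ⟨W.erase 0, by simp, hspan⟩
    have hinner0 : ∑ S ∈ (W.erase 0).powerset.filter (fun S => cl S = {0}), c S = c ∅ := by
      have : (W.erase 0).powerset.filter (fun S => cl S = {0}) = {∅} := by
        ext S
        rw [Finset.mem_filter, Finset.mem_powerset, Finset.mem_singleton]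
        constructor
        · rintro ⟨hS, hcl⟩
          rw [Finset.eq_empty_iff_forall_notMem]
          intro x hx
          have h1 : x ∈ cl S := subset_cl S hx
          rw [hcl, Finset.mem_singleton] at h1
          have h3 := hS hx
          rw [h1] at h3
          exact absurd h3 (Finset.notMem_erase _ _)
        · rintro rfl
          exact ⟨Finset.empty_subset _, cl_empty⟩
      rw [this, Finset.sum_singleton]
    have hinner : ∀ U ∈ (W.erase 0).powerset.image cl, U ≠ {0} → U ≠ W →
        ∑ S ∈ (W.erase 0).powerset.filter (fun S => cl S = U), c S = 0 := by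
      intro U hU hU0 hUW
      obtain ⟨S0, hS0, rfl⟩ := Finset.mem_image.1 hU
      rw [Finset.mem_powerset] at hS0
      have hUW' : cl S0 ⊆ W := cl_subset hsub (hS0.trans (Finset.erase_subset _ _))
      have hlt : (cl S0).card < W.card :=
        Finset.card_lt_card (Finset.ssubset_iff_subset_ne.2 ⟨hUW', hUW⟩)
      have hih := ih (cl S0) (by omega) (hUW'.trans hWV) (isSub_cl h2 S0) hU0
      have hset : (W.erase 0).powerset.filter (fun S => cl S = cl S0)
          = ((cl S0).erase 0).powerset.filter (fun S => cl S = cl S0) := by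
        ext S
        simp only [Finset.mem_filter, Finset.mem_powerset]
        constructor
        · rintro ⟨hS, hcl⟩
          refine ⟨?_, hcl⟩
          intro x hx
          refine Finset.mem_erase.2 ⟨?_, ?_⟩
          · exact (Finset.mem_erase.1 (hS hx)).1
          · rw [← hcl]; exact subset_cl S hx
        · rintro ⟨hS, hcl⟩
          exact ⟨hS.trans (Finset.erase_subset_erase _ hUW'), hcl⟩
      rw [hset]
      exact hih
    rw [← Finset.add_sum_erase _ _ hmem0, hinner0] at hfib
    have hmemW' : W ∈ ((W.erase 0).powerset.image cl).erase {0} :=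
      Finset.mem_erase.2 ⟨hne, hmemW⟩
    rw [← Finset.add_sum_erase _ _ hmemW'] at hfib
    have hrest : ∑ U ∈ (((W.erase 0).powerset.image cl).erase {0}).erase W,
        ∑ S ∈ (W.erase 0).powerset.filter (fun S => cl S = U), c S = 0 := by
      refine Finset.sum_eq_zero fun U hU => ?_
      rw [Finset.mem_erase, Finset.mem_erase] at hU
      exact hinner U hU.2.2 hU.2.1 hU.1
    rw [hrest, add_zero] at hfib
    have := add_left_cancel (a := c ∅) (b := ∑ S ∈ (W.erase 0).powerset.filter
      (fun S => cl S = W), c S) (c := 0) (by rw [add_zero]; exact hfib)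
    exact this

/-- Adding one generator outside a finite set. -/
lemma cl_insert (h2 : ∀ d : D, d + d = 0) (S : Finset D) (w : D) (hw : w ∉ cl S) :
    (∀ v ∈ cl (insert w S), v ∈ cl S ∨ ∃ u ∈ cl S, v = w + u) ∧
      (cl (insert w S)).card = 2 * (cl S).card := by
  have hwS : w ∉ S := fun h => hw (subset_cl S h)
  have hset : cl (insert w S) = cl S ∪ (cl S).image (fun u => w + u) := by
    ext x
    rw [Finset.mem_union, Finset.mem_image, mem_cl]
    constructor
    · rintro ⟨T, hT, rfl⟩
      by_cases hwT : w ∈ T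
      · right
        refine ⟨∑ v ∈ T.erase w, v, mem_cl.2 ⟨T.erase w, ?_, rfl⟩, ?_⟩
        · intro y hy
          rw [Finset.mem_erase] at hy
          rcases Finset.mem_insert.1 (hT hy.2) with h | h
          · exact absurd h hy.1
          · exact h
        · exact Finset.add_sum_erase T (fun v => v) hwT
      · left
        refine mem_cl.2 ⟨T, ?_, rfl⟩
        intro y hy
        rcases Finset.mem_insert.1 (hT hy) with h | h
        · rw [h] at hy; exact absurd hy hwT
        · exact h
    · rintro (h | ⟨u, hu, rfl⟩)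
      · obtain ⟨T, hT, rfl⟩ := mem_cl.1 h
        exact ⟨T, hT.trans (Finset.subset_insert _ _), rfl⟩
      · obtain ⟨T, hT, rfl⟩ := mem_cl.1 hu
        refine ⟨insert w T, Finset.insert_subset_insert _ hT, ?_⟩
        rw [Finset.sum_insert (fun h => hwS (hT h))]
  have hsub := isSub_cl h2 S
  refine ⟨?_, ?_⟩
  · intro v hv
    rw [hset, Finset.mem_union, Finset.mem_image] at hv
    rcases hv with h | ⟨u, hu, rfl⟩
    · exact Or.inl h
    · exact Or.inr ⟨u, hu, rfl⟩
  · rw [hset, Finset.card_union_of_disjoint, Finset.card_image_of_injective _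
      (add_right_injective w), two_mul]
    rw [Finset.disjoint_left]
    intro x hx hx'
    rw [Finset.mem_image] at hx'
    obtain ⟨u, hu, rfl⟩ := hx'
    have h3 := hsub.2 _ hx _ hu
    rw [add_assoc, h2 u, add_zero] at h3
    exact hw h3

end W92892c
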