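import Mathlib

/-!
Strict total positivity of the matrix `1/(m - i)!`.
-/

namespace W92892c

open Finset Matrix Equiv

/-- `1/z!` for `0 ≤ z`, `0` for negative `z`. -/
noncomputable def ent (z : ℤ) : ℝ := if 0 ≤ z then 1 / ((z.toNat).factorial : ℝ) else 0

lemma ent_of_neg {z : ℤ} (h : z < 0) : ent z = 0 := by
  unfold ent; rw [if_neg (by omega)]

lemma ent_zero : ent 0 = 1 := by simp [ent]

lemma ent_natCast (n : ℕ) : ent (n : ℤ) = 1 / (n.factorial : ℝ) := by
  simp [ent]

lemma ent_nonneg (z : ℤ) : 0 ≤ ent z := by
  unfold ent; split_ifs <;> positivity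

lemma mul_ent (z : ℤ) : ent z * (z : ℝ) = ent (z - 1) := by
  rcases lt_trichotomy z 0 with h | h | h
  · rw [ent_of_neg h, ent_of_neg (by omega)]; simp
  · subst h; rw [ent_of_neg (by norm_num : (0:ℤ) - 1 < 0)]; simp
  · obtain ⟨n, rfl⟩ : ∃ n : ℕ, z = (n : ℤ) + 1 := ⟨(z - 1).toNat, by omega⟩
    have h1 : ((n : ℤ) + 1) = ((n + 1 : ℕ) : ℤ) := by push_cast; ring
    have h2 : ((n : ℤ) + 1 - 1) = (n : ℤ) := by ring
    rw [h2, h1, ent_natCast, ent_natCast, Nat.factorial_succ]
    have : (n.factorial : ℝ) ≠ 0 := by positivity
    have h3 : ((n : ℝ) + 1) ≠ 0 := by positivity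
    push_cast
    field_simp

variable {r : ℕ}

/-- The matrix with entries `1/(m_s - i_t)!` (row `t`, column `s`). -/
noncomputable def tpMat (m i : Fin r → ℤ) : Matrix (Fin r) (Fin r) ℝ :=
  Matrix.of fun t s => ent (m s - i t)

lemma tp_rec (m i : Fin r → ℤ) :
    (tpMat m i).det * ((∑ s, m s - ∑ s, i s : ℤ) : ℝ)
      = ∑ s, (tpMat (Function.update m s (m s - 1)) i).det := by
  simp only [Matrix.det_apply']
  rw [Finset.sum_mul, Finset.sum_comm]
  refine Finset.sum_congr rfl fun σ _ => ?_
  have hsum : (∑ s, m s - ∑ s, i s : ℤ) = ∑ s, (m s - i (σ s)) := by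
    rw [Finset.sum_sub_distrib, Equiv.sum_comp σ i]
  rw [hsum]
  push_cast
  rw [Finset.mul_sum]
  refine Finset.sum_congr rfl fun s _ => ?_
  rw [mul_assoc]
  congr 1
  simp only [tpMat, Matrix.of_apply]
  rw [← Finset.prod_erase_mul (s := univ) (a := s) _ (Finset.mem_univ s),
    ← Finset.prod_erase_mul (s := univ) (a := s)
      (fun x => ent (Function.update m s (m s - 1) x - i (σ x))) (Finset.mem_univ s)]
  rw [mul_assoc]
  congr 1
  · refine Finset.prod_congr rfl fun x hx => ?_
    rw [Function.update_of_ne (Finset.ne_of_mem_erase hx)]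
  · rw [Function.update_self]
    have := mul_ent (m s - i (σ s))
    push_cast at this
    rw [this]
    congr 1
    ring

lemma tp_zero_of_lt (m i : Fin r → ℤ) (hm : StrictMono m) (hi : StrictMono i) (t : Fin r)
    (h : m t < i t) : (tpMat m i).det = 0 := by
  rw [Matrix.det_apply']
  refine Finset.sum_eq_zero fun σ _ => ?_
  have hex : ∃ s : Fin r, s ≤ t ∧ t ≤ σ s := by
    by_contra hcon
    push Not at hcon
    have hmap : ∀ s ∈ Finset.Iic t, σ s ∈ Finset.Iio t := by
      intro s hs
      rw [Finset.mem_Iic] at hs
      rw [Finset.mem_Iio]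
      exact hcon s hs
    have hcard := Finset.card_le_card_of_injOn (fun s => σ s) hmap
      (fun a _ b _ hab => σ.injective hab)
    simp at hcard
  obtain ⟨s, hs, hts⟩ := hex
  have h0 : tpMat m i (σ s) s = 0 := by
    simp only [tpMat, Matrix.of_apply]
    apply ent_of_neg
    have h1 := hm.monotone hs
    have h2 := hi.monotone hts
    omega
  have h1 : ∏ j, tpMat m i (σ j) j = 0 :=
    Finset.prod_eq_zero (f := fun j => tpMat m i (σ j) j) (Finset.mem_univ s) h0
  exact mul_eq_zero_of_right _ h1

lemma tp_diag (i : Fin r → ℤ) (hi : StrictMono i) : (tpMat i i).det = 1 := by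
  have h : (tpMat i i).BlockTriangular id := by
    intro a b hab
    simp only [tpMat, Matrix.of_apply]
    apply ent_of_neg
    have := hi (show b < a from hab)
    omega
  rw [Matrix.det_of_isUpperTriangular h]
  refine Finset.prod_eq_one fun a _ => ?_
  simp [tpMat, ent_zero]

lemma tp_zero_of_eq (m i : Fin r → ℤ) (u s : Fin r) (hus : u ≠ s) (h : m u = m s - 1) :
    (tpMat (Function.update m s (m s - 1)) i).det = 0 := by
  refine Matrix.det_zero_of_column_eq (i := u) (j := s) hus fun k => ?_
  simp only [tpMat, Matrix.of_apply]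
  rw [Function.update_of_ne hus, Function.update_self, h]

lemma strictMono_update (m : Fin r → ℤ) (hm : StrictMono m) (s : Fin r)
    (h : ∀ u, u ≠ s → m u ≠ m s - 1) : StrictMono (Function.update m s (m s - 1)) := by
  intro a b hab
  have h1 := hm hab
  by_cases ha : a = s
  · subst ha
    rw [Function.update_self, Function.update_of_ne (ne_of_gt hab)]
    omega
  · rw [Function.update_of_ne ha]
    by_cases hb : b = s
    · subst hb
      rw [Function.update_self]
      have := h a ha
      omega
    · rw [Function.update_of_ne hb]; exact h1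

theorem tp_pos (N : ℕ) : ∀ (m i : Fin r → ℤ), StrictMono m → StrictMono i →
    (∀ t, i t ≤ m t) → (∑ s, m s - ∑ s, i s = (N : ℤ)) → 0 < (tpMat m i).det := by
  induction N with
  | zero =>
    intro m i hm hi hle hsum
    have hz : ∑ s, (m s - i s) = 0 := by rw [Finset.sum_sub_distrib, hsum]; simp
    have hall := (Finset.sum_eq_zero_iff_of_nonneg (fun s _ => sub_nonneg.2 (hle s))).1 hz
    have hmi : m = i := by
      funext s
      have := hall s (Finset.mem_univ s)
      omega
    subst hmi
    rw [tp_diag m hm]; norm_num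
  | succ N ih =>
    intro m i hm hi hle hsum
    have hsumu : ∀ s, ∑ x, Function.update m s (m s - 1) x - ∑ x, i x = (N : ℤ) := by
      intro s
      have h1 : ∑ x, Function.update m s (m s - 1) x = ∑ x, m x - 1 := by
        rw [← Finset.add_sum_erase univ _ (Finset.mem_univ s),
          ← Finset.add_sum_erase univ m (Finset.mem_univ s), Function.update_self]
        have : ∑ x ∈ univ.erase s, Function.update m s (m s - 1) x
            = ∑ x ∈ univ.erase s, m x := by
          refine Finset.sum_congr rfl fun x hx => ?_
          rw [Function.update_of_ne (Finset.ne_of_mem_erase hx)]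
        rw [this]; ring
      rw [h1]
      push_cast at hsum
      linarith
    have hnonneg : ∀ s, 0 ≤ (tpMat (Function.update m s (m s - 1)) i).det := by
      intro s
      by_cases hu : ∃ u, u ≠ s ∧ m u = m s - 1
      · obtain ⟨u, hus, hu⟩ := hu
        rw [tp_zero_of_eq m i u s hus hu]
      · push Not at hu
        have hmono := strictMono_update m hm s hu
        by_cases hlt : ∃ t, Function.update m s (m s - 1) t < i t
        · obtain ⟨t, ht⟩ := hlt
          rw [tp_zero_of_lt _ i hmono hi t ht]
        · push Not at hlt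
          exact (ih _ i hmono hi hlt (hsumu s)).le
    -- a coordinate with `i s < m s`, minimal
    have hex : ∃ s, i s < m s := by
      by_contra hcon
      push Not at hcon
      have h0 : ∑ s, m s = ∑ s, i s :=
        Finset.sum_congr rfl fun s _ => le_antisymm (hcon s) (hle s)
      rw [h0] at hsum
      push_cast at hsum
      omega
    have hmin : ∃ s, i s < m s ∧ ∀ u, u < s → m u = i u := by
      classical
      have hne : (Finset.univ.filter fun s => i s < m s).Nonempty := by
        obtain ⟨s, hs⟩ := hex
        exact ⟨s, by simp [hs]⟩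
      refine ⟨(Finset.univ.filter fun s => i s < m s).min' hne, ?_, ?_⟩
      · have := Finset.min'_mem _ hne
        simpa using this
      · intro u hu
        by_contra hcon
        have hlt : i u < m u := lt_of_le_of_ne (hle u) (Ne.symm hcon)
        have := Finset.min'_le (Finset.univ.filter fun s => i s < m s) u (by simp [hlt])
        exact absurd hu (not_lt.2 this)
    obtain ⟨s, hs, hsmin⟩ := hmin
    have hpos : 0 < (tpMat (Function.update m s (m s - 1)) i).det := by
      have hu : ∀ u, u ≠ s → m u ≠ m s - 1 := by
        intro u hus hcon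
        have hlt : u < s := by
          rcases lt_or_gt_of_ne hus with h | h
          · exact h
          · have := hm h
            omega
        have h1 := hsmin u hlt
        have h2 := hi hlt
        omega
      have hmono := strictMono_update m hm s hu
      refine ih _ i hmono hi (fun t => ?_) (hsumu s)
      by_cases ht : t = s
      · subst ht; rw [Function.update_self]; omega
      · rw [Function.update_of_ne ht]; exact hle t
    have hrec := tp_rec m i
    rw [hsum] at hrec
    have hsumpos : 0 < ∑ s, (tpMat (Function.update m s (m s - 1)) i).det :=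
      Finset.sum_pos' (fun s _ => hnonneg s) ⟨s, Finset.mem_univ s, hpos⟩
    rw [← hrec] at hsumpos
    have hN : (0 : ℝ) < (((N + 1 : ℕ) : ℤ) : ℝ) := by push_cast; positivity
    exact (pos_iff_pos_of_mul_pos hsumpos).2 hN

/-- Strict positivity of the minors of `1/(m - i)!`. -/
theorem tp_det_pos (m i : Fin r → ℤ) (hm : StrictMono m) (hi : StrictMono i)
    (hle : ∀ t, i t ≤ m t) : 0 < (tpMat m i).det := by
  refine tp_pos (∑ s, m s - ∑ s, i s).toNat m i hm hi hle ?_
  have : 0 ≤ ∑ s, (m s - i s) := Finset.sum_nonneg fun s _ => sub_nonneg.2 (hle s)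
  rw [Finset.sum_sub_distrib] at this
  omega

end W92892c
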