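import Mathlib
import Pool.Agent.W_92892c_h28.TP

/-!
Truncated series of the form `e^{x z} G(z) E(z)` with `E` even satisfy few linear relations.
-/

namespace W92892c

open Finset Matrix Filter Topology

/-- `F = e^{x z} G(z) E(z)` with `E` even and `E(0) = 1`. -/
def IsType (G : PowerSeries ℂ) (x : ℂ) (F : PowerSeries ℂ) : Prop :=
  ∃ E : PowerSeries ℂ, (∀ j, Odd j → PowerSeries.coeff j E = 0) ∧ PowerSeries.coeff 0 E = 1 ∧
    F = PowerSeries.rescale x (PowerSeries.exp ℂ) * G * E

/-- The series `e^{x z} G(z)`. -/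
noncomputable def hser (G : PowerSeries ℂ) (x : ℂ) : PowerSeries ℂ :=
  PowerSeries.rescale x (PowerSeries.exp ℂ) * G

lemma coeff_hser (G : PowerSeries ℂ) (x : ℂ) (p : ℕ) :
    PowerSeries.coeff p (hser G x)
      = ∑ ab ∈ antidiagonal p, x ^ ab.1 * (1 / (ab.1.factorial : ℂ)) * PowerSeries.coeff ab.2 G := by
  unfold hser
  rw [PowerSeries.coeff_mul]
  refine Finset.sum_congr rfl fun ab _ => ?_
  rw [PowerSeries.coeff_rescale, PowerSeries.coeff_exp]
  simp

lemma tendsto_pow_ratio {ι : Type*} {l : Filter ι} {x : ι → ℂ}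
    (hx : Tendsto (fun i => ‖x i‖) l atTop) (d e : ℕ) (hed : e ≤ d) :
    Tendsto (fun i => ((x i) ^ d)⁻¹ * (x i) ^ e) l (𝓝 (if e = d then 1 else 0)) := by
  have hne : ∀ᶠ i in l, x i ≠ 0 := by
    filter_upwards [hx.eventually_gt_atTop 0] with i hi
    intro h; rw [h, norm_zero] at hi; exact lt_irrefl _ hi
  by_cases h : e = d
  · subst h
    rw [if_pos rfl]
    refine Tendsto.congr' ?_ tendsto_const_nhds
    filter_upwards [hne] with i hi
    rw [inv_mul_cancel₀ (pow_ne_zero _ hi)]
  · rw [if_neg h]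
    have hlt : e < d := lt_of_le_of_ne hed h
    have h1 : Tendsto (fun i => (x i) ⁻¹) l (𝓝 0) := by
      rw [tendsto_zero_iff_norm_tendsto_zero]
      simp only [norm_inv]
      exact tendsto_inv_atTop_zero.comp hx
    have h2 : Tendsto (fun i => ((x i)⁻¹) ^ (d - e)) l (𝓝 (0 ^ (d - e))) := h1.pow _
    rw [zero_pow (by omega)] at h2
    refine Tendsto.congr' ?_ h2
    filter_upwards [hne] with i hi
    rw [inv_pow]
    have : (x i) ^ d = (x i) ^ (d - e) * (x i) ^ e := by
      rw [← pow_add]; congr 1; omega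
    rw [this, mul_inv, mul_assoc, inv_mul_cancel₀ (pow_ne_zero _ hi), mul_one]

/-- `[z^l] (e^{xz} G z^(2j))`. -/
noncomputable def hh (G : PowerSeries ℂ) (l j : ℕ) (x : ℂ) : ℂ :=
  if 2 * j ≤ l then PowerSeries.coeff (l - 2 * j) (hser G x) else 0

lemma tendsto_hh {G : PowerSeries ℂ} (hG : PowerSeries.coeff 0 G = 1)
    {ι : Type*} {f : Filter ι} {x : ι → ℂ}
    (hx : Tendsto (fun i => ‖x i‖) f atTop) (d l j : ℕ) (hld : l ≤ d) :
    Tendsto (fun i => ((x i) ^ d)⁻¹ * hh G l j (x i) * (x i) ^ (2 * j)) f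
      (𝓝 (if l = d then ((ent ((d : ℤ) - (2 * j : ℕ)) : ℝ) : ℂ) else 0)) := by
  unfold hh
  by_cases hjl : 2 * j ≤ l
  · simp only [if_pos hjl]
    obtain ⟨p, rfl⟩ : ∃ p, l = p + 2 * j := ⟨l - 2 * j, by omega⟩
    rw [show p + 2 * j - 2 * j = p by omega]
    have hlim : ∀ ab ∈ antidiagonal p, Tendsto
        (fun i => (1 / (ab.1.factorial : ℂ)) * PowerSeries.coeff ab.2 G
          * (((x i) ^ d)⁻¹ * (x i) ^ (ab.1 + 2 * j))) f
        (𝓝 ((1 / (ab.1.factorial : ℂ)) * PowerSeries.coeff ab.2 G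
          * (if ab.1 + 2 * j = d then 1 else 0))) := by
      intro ab hab
      rw [HasAntidiagonal.mem_antidiagonal] at hab
      exact (tendsto_pow_ratio hx d (ab.1 + 2 * j) (by omega)).const_mul _
    have hsum := tendsto_finsetSum (antidiagonal p) hlim
    have hval : ∑ ab ∈ antidiagonal p, ((1 / (ab.1.factorial : ℂ)) * PowerSeries.coeff ab.2 G
          * (if ab.1 + 2 * j = d then 1 else 0))
        = (if p + 2 * j = d then ((ent ((d : ℤ) - (2 * j : ℕ)) : ℝ) : ℂ) else 0) := by
      by_cases hpd : p + 2 * j = d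
      · rw [if_pos hpd]
        rw [Finset.sum_eq_single (p, 0)]
        · simp only [hG]
          rw [if_pos hpd]
          have : ((d : ℤ) - (2 * j : ℕ)) = (p : ℤ) := by
            rw [← hpd]; push_cast; ring
          rw [this, ent_natCast]
          push_cast
          ring
        · intro ab hab hne
          rw [HasAntidiagonal.mem_antidiagonal] at hab
          rw [if_neg, mul_zero]
          intro h
          apply hne
          ext <;> simp <;> omega
        · intro h
          exact absurd (by simp : (p, 0) ∈ antidiagonal p) h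
      · rw [if_neg hpd]
        refine Finset.sum_eq_zero fun ab hab => ?_
        rw [HasAntidiagonal.mem_antidiagonal] at hab
        rw [if_neg, mul_zero]
        omega
    rw [hval] at hsum
    refine hsum.congr fun i => ?_
    rw [coeff_hser, Finset.mul_sum, Finset.sum_mul]
    refine Finset.sum_congr rfl fun ab _ => ?_
    rw [pow_add]
    ring
  · simp only [if_neg hjl, mul_zero, zero_mul]
    by_cases hld' : l = d
    · subst hld'
      rw [if_pos rfl, ent_of_neg (by omega)]
      simpa using tendsto_const_nhds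
    · rw [if_neg hld']
      exact tendsto_const_nhds

lemma distinct_tops {n N : ℕ} (Λ : Submodule ℂ (Fin (n + 1) → ℂ))
    (h : N ≤ Module.finrank ℂ Λ) :
    ∃ (d : Fin N → Fin (n + 1)) (φ : Fin N → Fin (n + 1) → ℂ), StrictMono d ∧
      (∀ s, φ s ∈ Λ) ∧ (∀ s, φ s (d s) ≠ 0) ∧ ∀ s l, d s < l → φ s l = 0 := by
  classical
  set T : Finset (Fin (n + 1)) :=
    Finset.univ.filter (fun t => ∃ φ ∈ Λ, φ t ≠ 0 ∧ ∀ l, t < l → φ l = 0) with hT
  let g : Λ →ₗ[ℂ] (T → ℂ) :=
    { toFun := fun φ t => (φ : Fin (n + 1) → ℂ) t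
      map_add' := fun a b => by ext t; simp
      map_smul' := fun c a => by ext t; simp }
  have hinj : Function.Injective g := by
    rw [← LinearMap.ker_eq_bot, LinearMap.ker_eq_bot']
    intro φ hφ
    by_contra hne
    have hne' : (φ : Fin (n + 1) → ℂ) ≠ 0 := fun h0 => hne (Subtype.ext h0)
    have hS : (Finset.univ.filter fun l => (φ : Fin (n + 1) → ℂ) l ≠ 0).Nonempty := by
      by_contra hemp
      rw [Finset.not_nonempty_iff_eq_empty] at hemp
      apply hne'
      funext l
      by_contra hl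
      have : l ∈ Finset.univ.filter fun l => (φ : Fin (n + 1) → ℂ) l ≠ 0 := by
        simpa using hl
      rw [hemp] at this
      simp at this
    set t := (Finset.univ.filter fun l => (φ : Fin (n + 1) → ℂ) l ≠ 0).max' hS with ht
    have ht0 : (φ : Fin (n + 1) → ℂ) t ≠ 0 := by
      have := Finset.max'_mem _ hS
      rw [← ht] at this
      simpa using this
    have htop : ∀ l, t < l → (φ : Fin (n + 1) → ℂ) l = 0 := by
      intro l hl
      by_contra hne
      have := Finset.le_max' (Finset.univ.filter fun l => (φ : Fin (n + 1) → ℂ) l ≠ 0) l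
        (by simpa using hne)
      rw [← ht] at this
      exact absurd hl (not_lt.2 this)
    have htT : t ∈ T := by
      rw [hT, Finset.mem_filter]
      exact ⟨Finset.mem_univ _, φ, φ.2, ht0, htop⟩
    have := congrFun hφ ⟨t, htT⟩
    exact ht0 this
  have hcard : Module.finrank ℂ Λ ≤ T.card := by
    have := LinearMap.finrank_le_finrank_of_injective hinj
    simpa using this
  obtain ⟨T', hT'T, hT'c⟩ := Finset.exists_subset_card_eq (h.trans hcard)
  have hmem : ∀ s : Fin N, ∃ φ ∈ Λ, φ (T'.orderEmbOfFin hT'c s) ≠ 0 ∧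
      ∀ l, T'.orderEmbOfFin hT'c s < l → φ l = 0 := by
    intro s
    have h1 : T'.orderEmbOfFin hT'c s ∈ T := hT'T (Finset.orderEmbOfFin_mem T' hT'c s)
    rw [hT, Finset.mem_filter] at h1
    exact h1.2
  choose φ hφ1 hφ2 hφ3 using hmem
  exact ⟨fun s => T'.orderEmbOfFin hT'c s, φ, (T'.orderEmbOfFin hT'c).strictMono, hφ1, hφ2, hφ3⟩

lemma coeff_type_eq (G E : PowerSeries ℂ) (x : ℂ) (hE : ∀ j, Odd j → PowerSeries.coeff j E = 0)
    (t l : ℕ) (hl : l < 2 * t) :
    PowerSeries.coeff l (hser G x * E)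
      = ∑ j ∈ range t, hh G l j x * PowerSeries.coeff (2 * j) E := by
  rw [PowerSeries.coeff_mul,
    Finset.Nat.sum_antidiagonal_eq_sum_range_succ
      (fun a b => PowerSeries.coeff a (hser G x) * PowerSeries.coeff b E) l]
  rw [← Finset.sum_range_reflect]
  have h1 : ∑ j ∈ range (l + 1), PowerSeries.coeff (l + 1 - 1 - j) (hser G x)
        * PowerSeries.coeff (l - (l + 1 - 1 - j)) E
      = ∑ b ∈ range (2 * t), (if b ≤ l then
          PowerSeries.coeff (l - b) (hser G x) * PowerSeries.coeff b E else 0) := by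
    rw [← Finset.sum_subset (Finset.range_subset_range.2 (by omega : l + 1 ≤ 2 * t))]
    · refine Finset.sum_congr rfl fun b hb => ?_
      rw [Finset.mem_range] at hb
      rw [if_pos (by omega), show l + 1 - 1 - b = l - b by omega,
        show l - (l - b) = b by omega]
    · intro b _ hb
      rw [Finset.mem_range] at hb
      rw [if_neg (by omega)]
  have h2 : ∀ (g : ℕ → ℂ) (t : ℕ), ∑ b ∈ range (2 * t), g b
      = ∑ j ∈ range t, (g (2 * j) + g (2 * j + 1)) := by
    intro g t
    induction t with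
    | zero => simp
    | succ t ih =>
      rw [show 2 * (t + 1) = 2 * t + 1 + 1 by ring, Finset.sum_range_succ, Finset.sum_range_succ,
        Finset.sum_range_succ, ih]
      ring
  rw [h1, h2]
  refine Finset.sum_congr rfl fun j _ => ?_
  rw [hE (2 * j + 1) ⟨j, rfl⟩]
  unfold hh
  split_ifs <;> simp

/-- **Lemma R.** -/
theorem finrank_le_half {G : PowerSeries ℂ} (hG : PowerSeries.coeff 0 G = 1)
    {ι : Type*} {f : Filter ι} [f.NeBot] {x : ι → ℂ}
    (hx : Tendsto (fun i => ‖x i‖) f atTop) {F : ι → PowerSeries ℂ}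
    (hF : ∀ i, IsType G (x i) (F i)) (n : ℕ) (Λ : Submodule ℂ (Fin (n + 1) → ℂ))
    (hΛ : ∀ φ ∈ Λ, ∀ i, ∑ l : Fin (n + 1), φ l * PowerSeries.coeff (l : ℕ) (F i) = 0) :
    Module.finrank ℂ Λ ≤ n / 2 := by
  classical
  by_contra hcon
  push Not at hcon
  obtain ⟨d, φ, hd, hφΛ, hφd, hφtop⟩ := distinct_tops (N := n / 2 + 1) Λ hcon
  have hex : ∃ t, t = n / 2 + 1 ∨ ∃ h : t < n / 2 + 1, ((d ⟨t, h⟩ : Fin (n + 1)) : ℕ) < 2 * t :=
    ⟨n / 2 + 1, Or.inl rfl⟩
  set t := Nat.find hex with ht
  have htN : t ≤ n / 2 + 1 := Nat.find_min' hex (Or.inl rfl)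
  have htspec := Nat.find_spec hex
  rw [← ht] at htspec
  have ht0 : 0 < t := by
    rcases Nat.eq_zero_or_pos t with h0 | h0
    · rw [h0] at htspec
      rcases htspec with h | ⟨h, h'⟩ <;> omega
    · exact h0
  have hlow : ∀ s : Fin t, 2 * (s : ℕ) ≤ (d (Fin.castLE htN s) : ℕ) := by
    intro s
    have h1 := Nat.find_min hex (m := (s : ℕ)) (by rw [← ht]; exact s.2)
    push Not at h1
    exact h1.2 (lt_of_lt_of_le s.2 htN)
  have hhigh : ∀ s : Fin t, (d (Fin.castLE htN s) : ℕ) < 2 * t := by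
    intro s
    rcases htspec with h | ⟨h, h'⟩
    · have := (d (Fin.castLE htN s)).2
      omega
    · have h2 : d (Fin.castLE htN s) < d ⟨t, h⟩ := hd (by
        show (Fin.castLE htN s : ℕ) < t
        simp)
      have h3 : (d (Fin.castLE htN s) : ℕ) < (d ⟨t, h⟩ : ℕ) := h2
      omega
  -- the matrices
  let A : ι → Matrix (Fin t) (Fin t) ℂ := fun i => Matrix.of fun s j =>
    ∑ l : Fin (n + 1), φ (Fin.castLE htN s) l * hh G l j (x i)
  have hdetA : ∀ i, (A i).det = 0 := by
    intro i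
    obtain ⟨E, hE, hE0, hFE⟩ := hF i
    by_contra hne
    have hmul : (A i).mulVec (fun j : Fin t => PowerSeries.coeff (2 * (j : ℕ)) E) = 0 := by
      funext s
      simp only [Matrix.mulVec, dotProduct, A, Matrix.of_apply, Pi.zero_apply]
      rw [← hΛ (φ (Fin.castLE htN s)) (hφΛ _) i]
      simp only [Finset.sum_mul]
      rw [Finset.sum_comm]
      refine Finset.sum_congr rfl fun l _ => ?_
      by_cases hl : d (Fin.castLE htN s) < l
      · rw [hφtop _ l hl]; simp
      · have hl' : (l : ℕ) ≤ (d (Fin.castLE htN s) : ℕ) := not_lt.1 hl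
        have h1 := coeff_type_eq G E (x i) hE t l (lt_of_le_of_lt hl' (hhigh s))
        rw [hFE]
        unfold hser at h1
        rw [h1, Finset.mul_sum, Finset.sum_range]
        refine Finset.sum_congr rfl fun j _ => ?_
        ring
    have h0 := Matrix.eq_zero_of_mulVec_eq_zero hne hmul
    have h1 := congrFun h0 ⟨0, ht0⟩
    simp only [mul_zero, Pi.zero_apply] at h1
    rw [hE0] at h1
    exact one_ne_zero h1
  let B : ι → Matrix (Fin t) (Fin t) ℂ := fun i => Matrix.of fun s j =>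
    ((x i) ^ (d (Fin.castLE htN s) : ℕ))⁻¹ * A i s j * (x i) ^ (2 * (j : ℕ))
  have hdetB : ∀ i, (B i).det = 0 := by
    intro i
    have h1 : B i = Matrix.of fun (s j : Fin t) => (x i) ^ (2 * (j : ℕ)) *
        (Matrix.of fun (s j : Fin t) =>
          ((x i) ^ (d (Fin.castLE htN s) : ℕ))⁻¹ * A i s j) s j := by
      ext s j
      simp only [B, Matrix.of_apply]
      ring
    rw [h1, Matrix.det_mul_row, Matrix.det_mul_column, hdetA i, mul_zero, mul_zero]
  let C : Matrix (Fin t) (Fin t) ℂ := Matrix.of fun s j =>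
    φ (Fin.castLE htN s) (d (Fin.castLE htN s)) *
      ((ent (((d (Fin.castLE htN s) : ℕ) : ℤ) - (2 * (j : ℕ) : ℕ)) : ℝ) : ℂ)
  have htend' : ∀ s j, Tendsto (fun i => B i s j) f (𝓝 (C s j)) := by
    intro s j
    simp only [B, C, Matrix.of_apply, A]
    have hterm : ∀ l ∈ (Finset.univ : Finset (Fin (n + 1))), Tendsto
        (fun i => φ (Fin.castLE htN s) l *
          (((x i) ^ (d (Fin.castLE htN s) : ℕ))⁻¹ * hh G l j (x i) * (x i) ^ (2 * (j : ℕ)))) f
        (𝓝 (if l = d (Fin.castLE htN s) then φ (Fin.castLE htN s) (d (Fin.castLE htN s)) *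
      ((ent (((d (Fin.castLE htN s) : ℕ) : ℤ) - (2 * (j : ℕ) : ℕ)) : ℝ) : ℂ) else 0)) := by
      intro l _
      by_cases hl : d (Fin.castLE htN s) < l
      · rw [hφtop _ l hl, if_neg (ne_of_gt hl)]
        simp
      · have hl' : (l : ℕ) ≤ (d (Fin.castLE htN s) : ℕ) := not_lt.1 hl
        have h1 := (tendsto_hh hG hx (d (Fin.castLE htN s)) l j hl').const_mul
          (φ (Fin.castLE htN s) l)
        by_cases hld : l = d (Fin.castLE htN s)
        · rw [if_pos hld]
          have hld' : (l : ℕ) = (d (Fin.castLE htN s) : ℕ) := by rw [hld]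
          rw [if_pos hld'] at h1
          rw [hld] at h1 ⊢
          exact h1
        · rw [if_neg hld]
          have hld' : (l : ℕ) ≠ (d (Fin.castLE htN s) : ℕ) := fun h => hld (Fin.ext h)
          rw [if_neg hld', mul_zero] at h1
          exact h1
    have hsum := tendsto_finsetSum Finset.univ hterm
    rw [Finset.sum_ite_eq' Finset.univ (d (Fin.castLE htN s))] at hsum
    rw [if_pos (Finset.mem_univ _)] at hsum
    refine hsum.congr fun i => ?_
    rw [Finset.mul_sum, Finset.sum_mul]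
    refine Finset.sum_congr rfl fun l _ => ?_
    ring
  have htend : Tendsto B f (𝓝 C) :=
    tendsto_pi_nhds.2 fun s => tendsto_pi_nhds.2 fun j => htend' s j
  have hdetC : C.det = 0 := by
    have h1 : Tendsto (fun i => (B i).det) f (𝓝 C.det) :=
      ((Continuous.matrix_det continuous_id).tendsto C).comp htend
    simp only [hdetB] at h1
    exact tendsto_nhds_unique h1 tendsto_const_nhds |>.symm ▸ rfl
  have hCdet : C.det = (∏ s : Fin t, φ (Fin.castLE htN s) (d (Fin.castLE htN s))) *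
      (((tpMat (fun s : Fin t => ((d (Fin.castLE htN s) : ℕ) : ℤ))
        (fun j : Fin t => ((2 * (j : ℕ) : ℕ) : ℤ))).det : ℝ) : ℂ) := by
    have h1 : C = Matrix.of fun s j => φ (Fin.castLE htN s) (d (Fin.castLE htN s)) *
        ((Complex.ofRealHom.mapMatrix (tpMat (fun s : Fin t => ((d (Fin.castLE htN s) : ℕ) : ℤ))
        (fun j : Fin t => ((2 * (j : ℕ) : ℕ) : ℤ))).transpose) s j) := by
      ext s j
      simp [C, tpMat]
    rw [h1, Matrix.det_mul_column, ← RingHom.map_det, Matrix.det_transpose]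
    rfl
  have hpos : 0 < (tpMat (fun s : Fin t => ((d (Fin.castLE htN s) : ℕ) : ℤ))
        (fun j : Fin t => ((2 * (j : ℕ) : ℕ) : ℤ))).det := by
    apply tp_det_pos
    · intro a b hab
      have : d (Fin.castLE htN a) < d (Fin.castLE htN b) := hd (by
        show (Fin.castLE htN a : ℕ) < (Fin.castLE htN b : ℕ)
        simpa using hab)
      have h3 : (d (Fin.castLE htN a) : ℕ) < (d (Fin.castLE htN b) : ℕ) := this
      show ((d (Fin.castLE htN a) : ℕ) : ℤ) < ((d (Fin.castLE htN b) : ℕ) : ℤ)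
      exact_mod_cast h3
    · intro a b hab
      have h3 : (a : ℕ) < (b : ℕ) := hab
      show ((2 * (a : ℕ) : ℕ) : ℤ) < ((2 * (b : ℕ) : ℕ) : ℤ)
      exact_mod_cast (by omega : 2 * (a : ℕ) < 2 * (b : ℕ))
    · intro s
      show ((2 * (s : ℕ) : ℕ) : ℤ) ≤ ((d (Fin.castLE htN s) : ℕ) : ℤ)
      exact_mod_cast hlow s
  rw [hCdet] at hdetC
  rcases mul_eq_zero.1 hdetC with h | h
  · obtain ⟨s, _, hs⟩ := Finset.prod_eq_zero_iff.1 h
    exact hφd _ hs
  · have : (tpMat (fun s : Fin t => ((d (Fin.castLE htN s) : ℕ) : ℤ))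
        (fun j : Fin t => ((2 * (j : ℕ) : ℕ) : ℤ))).det = 0 := by exact_mod_cast h
    rw [this] at hpos
    exact lt_irrefl _ hpos

end W92892c
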