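import Mathlib
import Pool.Agent.W_92892c_h28.RLemma

/-!
Step 1: two infinite families cannot be orthogonal.
-/

namespace W92892c

open Finset Matrix Filter Topology

lemma IsType.coeff_zero {G : PowerSeries ℂ} (hG : PowerSeries.coeff 0 G = 1) {x : ℂ}
    {F : PowerSeries ℂ} (h : IsType G x F) : PowerSeries.coeff 0 F = 1 := by
  obtain ⟨E, _, hE0, rfl⟩ := h
  rw [PowerSeries.coeff_zero_eq_constantCoeff_apply] at *
  rw [map_mul, map_mul, hG, hE0]
  rw [← PowerSeries.coeff_zero_eq_constantCoeff_apply, PowerSeries.coeff_rescale,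
    PowerSeries.coeff_exp]
  simp

theorem no_pair {G : PowerSeries ℂ} (hG : PowerSeries.coeff 0 G = 1) (n : ℕ)
    {ι ι' : Type*} {f : Filter ι} {f' : Filter ι'} [f.NeBot] [f'.NeBot] {x : ι → ℂ} {x' : ι' → ℂ}
    (hx : Tendsto (fun i => ‖x i‖) f atTop) (hx' : Tendsto (fun i => ‖x' i‖) f' atTop)
    {F : ι → PowerSeries ℂ} {F' : ι' → PowerSeries ℂ}
    (hF : ∀ i, IsType G (x i) (F i)) (hF' : ∀ i, IsType G (x' i) (F' i))
    (h : ∀ i i', PowerSeries.coeff (n + 1) (F i * F' i') = PowerSeries.coeff (n + 1) (F i)) :
    False := by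
  classical
  have horth : ∀ i i', ∑ l : Fin (n + 1), PowerSeries.coeff (n + 1 - (l : ℕ)) (F' i') *
      PowerSeries.coeff (l : ℕ) (F i) = 0 := by
    intro i i'
    have h1 := h i i'
    rw [PowerSeries.coeff_mul, Finset.Nat.sum_antidiagonal_eq_sum_range_succ
      (fun a b => PowerSeries.coeff a (F i) * PowerSeries.coeff b (F' i')) (n + 1),
      Finset.sum_range_succ, Nat.sub_self, (hF' i').coeff_zero hG, mul_one] at h1
    have h2 : ∑ a ∈ range (n + 1), PowerSeries.coeff a (F i) *
        PowerSeries.coeff (n + 1 - a) (F' i') = 0 := by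
      have := h1
      simpa using this
    rw [Finset.sum_range] at h2
    rw [← h2]
    exact Finset.sum_congr rfl fun l _ => mul_comm _ _
  -- the functionals killing the family `F`
  let ΛA : Submodule ℂ (Fin (n + 1) → ℂ) :=
    { carrier := {φ | ∀ i, ∑ l : Fin (n + 1), φ l * PowerSeries.coeff (l : ℕ) (F i) = 0}
      add_mem' := by
        intro a b ha hb i
        simp only [Pi.add_apply, add_mul, Finset.sum_add_distrib]
        rw [ha i, hb i, add_zero]
      zero_mem' := by intro i; simp
      smul_mem' := by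
        intro c a ha i
        simp only [Pi.smul_apply, smul_eq_mul, mul_assoc]
        rw [← Finset.mul_sum, ha i, mul_zero] }
  have hA : Module.finrank ℂ ΛA ≤ n / 2 :=
    finrank_le_half hG hx hF n ΛA fun φ hφ i => hφ i
  let ψ : ι' → Fin (n + 1) → ℂ := fun i' l => PowerSeries.coeff (n + 1 - (l : ℕ)) (F' i')
  let 𝓑 : Submodule ℂ (Fin (n + 1) → ℂ) := Submodule.span ℂ (Set.range ψ)
  have hBA : 𝓑 ≤ ΛA := by
    rw [Submodule.span_le]
    rintro _ ⟨i', rfl⟩ i
    exact horth i i'
  have hB : Module.finrank ℂ 𝓑 ≤ n / 2 := (Submodule.finrank_mono hBA).trans hA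
  let T : (Fin (n + 1) → ℂ) →ₗ[ℂ] Module.Dual ℂ 𝓑 :=
    { toFun := fun v =>
        { toFun := fun b => ∑ l, v l * (b : Fin (n + 1) → ℂ) l
          map_add' := by
            intro a b
            simp only [Submodule.coe_add, Pi.add_apply, mul_add, Finset.sum_add_distrib]
          map_smul' := by
            intro c a
            simp only [Submodule.coe_smul, Pi.smul_apply, smul_eq_mul, RingHom.id_apply,
              Finset.mul_sum]
            exact Finset.sum_congr rfl fun l _ => by ring }
      map_add' := by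
        intro a b
        ext c
        simp only [Pi.add_apply, add_mul, Finset.sum_add_distrib, LinearMap.coe_mk,
          AddHom.coe_mk, LinearMap.add_apply]
      map_smul' := by
        intro c a
        ext b
        simp only [Pi.smul_apply, smul_eq_mul, RingHom.id_apply, LinearMap.coe_mk,
          AddHom.coe_mk, LinearMap.smul_apply, Finset.mul_sum]
        exact Finset.sum_congr rfl fun l _ => by ring }
  have hTker : n + 1 - n / 2 ≤ Module.finrank ℂ (LinearMap.ker T) := by
    have h1 := LinearMap.finrank_range_add_finrank_ker T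
    have h2 : Module.finrank ℂ (LinearMap.range T) ≤ n / 2 := by
      refine (Submodule.finrank_le _).trans ?_
      rw [Subspace.dual_finrank_eq]
      exact hB
    rw [Module.finrank_fin_fun] at h1
    omega
  let ΛB : Submodule ℂ (Fin (n + 1 + 1) → ℂ) :=
    { carrier := {φ | ∀ i, ∑ l : Fin (n + 1 + 1), φ l * PowerSeries.coeff (l : ℕ) (F' i) = 0}
      add_mem' := by
        intro a b ha hb i
        simp only [Pi.add_apply, add_mul, Finset.sum_add_distrib]
        rw [ha i, hb i, add_zero]
      zero_mem' := by intro i; simp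
      smul_mem' := by
        intro c a ha i
        simp only [Pi.smul_apply, smul_eq_mul, mul_assoc]
        rw [← Finset.mul_sum, ha i, mul_zero] }
  have hΛB : Module.finrank ℂ ΛB ≤ (n + 1) / 2 :=
    finrank_le_half hG hx' hF' (n + 1) ΛB fun φ hφ i => hφ i
  have hmem : ∀ v ∈ LinearMap.ker T,
      (Fin.cons 0 (fun j : Fin (n + 1) => v (Fin.rev j)) : Fin (n + 1 + 1) → ℂ) ∈ ΛB := by
    intro v hv i'
    rw [Fin.sum_univ_succ]
    simp only [Fin.cons_zero, zero_mul, zero_add, Fin.cons_succ]
    have h1 : T v ⟨ψ i', Submodule.subset_span ⟨i', rfl⟩⟩ = 0 := by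
      rw [LinearMap.mem_ker.1 hv]; rfl
    have h2 : ∑ l : Fin (n + 1), v l * PowerSeries.coeff (n + 1 - (l : ℕ)) (F' i') = 0 := h1
    rw [← h2, ← Equiv.sum_comp Fin.revPerm]
    refine Finset.sum_congr rfl fun j _ => ?_
    rw [Fin.revPerm_apply, Fin.rev_rev]
    congr 2
    rw [Fin.val_succ, Fin.val_rev]
    have := j.2
    congr 1
    omega
  let S : LinearMap.ker T →ₗ[ℂ] ΛB :=
    { toFun := fun v => ⟨Fin.cons 0 (fun j : Fin (n + 1) => (v : Fin (n + 1) → ℂ) (Fin.rev j)),
        hmem v v.2⟩
      map_add' := by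
        intro a b
        apply Subtype.ext
        funext j
        refine Fin.cases ?_ (fun j => ?_) j
        · simp
        · simp
      map_smul' := by
        intro c a
        apply Subtype.ext
        funext j
        refine Fin.cases ?_ (fun j => ?_) j
        · simp
        · simp }
  have hSinj : Function.Injective S := by
    intro a b hab
    apply Subtype.ext
    funext j
    have h1 := congrFun (congrArg Subtype.val hab) (Fin.succ (Fin.rev j))
    simpa [S] using h1
  have hfin := LinearMap.finrank_le_finrank_of_injective hSinj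
  omega

end W92892c
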