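import Mathlib
import Pool.Agent.W_92892c_h28.Step1
import Pool.Agent.W_92892c_h28.Cl

/-!
Abstract core of team V15 (MP_92892c_nt): the literal equations for all pairs, and for all cosets
of finite subgroups, force all defects `k d` to vanish.
-/

namespace W92892c

open Finset Filter Topology

/-- Normalised Taylor data: `L_d = c_d X^(m_d) F_d` with `coeff (k d) (F d) = 1`, `r_d = m_d + k_d`. -/
structure Data {D : Type*} (R : PowerSeries ℂ) (lam : D → ℝ) (F : D → PowerSeries ℂ)
    (k : D → ℕ) : Prop where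
  odd : ∀ d j, Odd j → PowerSeries.coeff j
    (F d * PowerSeries.rescale (lam d : ℂ) (PowerSeries.exp ℂ) * R) = 0
  zero : ∀ d, PowerSeries.coeff 0 (F d) ≠ 0
  top : ∀ d, PowerSeries.coeff (k d) (F d) = 1
  grow : Tendsto lam cofinite atTop
  pair : ∀ a b, a ≠ b → PowerSeries.coeff (k a + k b) (F a * F b) = 1
  good : {d | k d = 0}.Infinite

lemma isType_normal {R : PowerSeries ℂ} (hR : PowerSeries.coeff 0 R = 1) {lam : ℝ}
    {F : PowerSeries ℂ} (hodd : ∀ j, Odd j → PowerSeries.coeff j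
      (F * PowerSeries.rescale (lam : ℂ) (PowerSeries.exp ℂ) * R) = 0)
    (h0 : PowerSeries.coeff 0 F ≠ 0) :
    IsType R⁻¹ ((-lam : ℝ) : ℂ) (PowerSeries.C (PowerSeries.coeff 0 F)⁻¹ * F) := by
  have hRc : PowerSeries.constantCoeff R ≠ 0 := by
    rw [← PowerSeries.coeff_zero_eq_constantCoeff_apply, hR]; exact one_ne_zero
  refine ⟨PowerSeries.C (PowerSeries.coeff 0 F)⁻¹ *
    (F * PowerSeries.rescale (lam : ℂ) (PowerSeries.exp ℂ) * R), ?_, ?_, ?_⟩
  · intro j hj
    rw [PowerSeries.coeff_C_mul, hodd j hj, mul_zero]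
  · rw [PowerSeries.coeff_C_mul]
    have h1 : PowerSeries.coeff 0 (F * PowerSeries.rescale (lam : ℂ) (PowerSeries.exp ℂ) * R)
        = PowerSeries.coeff 0 F := by
      rw [PowerSeries.coeff_zero_eq_constantCoeff_apply, map_mul, map_mul,
        ← PowerSeries.coeff_zero_eq_constantCoeff_apply,
        ← PowerSeries.coeff_zero_eq_constantCoeff_apply,
        ← PowerSeries.coeff_zero_eq_constantCoeff_apply, hR, PowerSeries.coeff_rescale,
        PowerSeries.coeff_exp]
      simp
    rw [h1, inv_mul_cancel₀ h0]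
  · have hexp : PowerSeries.rescale ((-lam : ℝ) : ℂ) (PowerSeries.exp ℂ) *
        PowerSeries.rescale (lam : ℂ) (PowerSeries.exp ℂ) = 1 := by
      rw [PowerSeries.exp_mul_exp_eq_exp_add]
      push_cast
      rw [neg_add_cancel, PowerSeries.rescale_zero_apply, PowerSeries.constantCoeff_exp, map_one]
    have hinv : R⁻¹ * R = 1 := PowerSeries.inv_mul_cancel R hRc
    calc PowerSeries.C (PowerSeries.coeff 0 F)⁻¹ * F
        = (PowerSeries.rescale ((-lam : ℝ) : ℂ) (PowerSeries.exp ℂ) *
            PowerSeries.rescale (lam : ℂ) (PowerSeries.exp ℂ)) * (R⁻¹ * R) *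
            (PowerSeries.C (PowerSeries.coeff 0 F)⁻¹ * F) := by rw [hexp, hinv]; ring
      _ = _ := by ring

theorem core_finite_one {D : Type*} {R : PowerSeries ℂ} (hR : PowerSeries.coeff 0 R = 1)
    {lam : D → ℝ} {F : D → PowerSeries ℂ} {k : D → ℕ} (h : Data R lam F k) (n : ℕ) :
    {d | k d = n + 1}.Finite := by
  by_contra hinf
  have hinf' : {d | k d = n + 1}.Infinite := hinf
  haveI : Infinite {d | k d = n + 1} := hinf'.to_subtype
  haveI : Infinite {d | k d = 0} := h.good.to_subtype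
  have hnorm : ∀ s : Set D, Tendsto (fun i : s => ‖((-lam i : ℝ) : ℂ)‖) cofinite atTop := by
    intro s
    have h1 : Tendsto (fun i : s => lam i) cofinite atTop :=
      h.grow.comp Subtype.val_injective.tendsto_cofinite
    have h2 := tendsto_abs_atTop_atTop.comp h1
    refine h2.congr fun i => ?_
    simp only [Function.comp, Complex.norm_real, Real.norm_eq_abs, abs_neg]
  have hR' : PowerSeries.coeff 0 R⁻¹ = 1 := by
    rw [PowerSeries.coeff_zero_eq_constantCoeff_apply, PowerSeries.constantCoeff_inv,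
      ← PowerSeries.coeff_zero_eq_constantCoeff_apply, hR, inv_one]
  refine no_pair (G := R⁻¹) hR' n (hnorm {d | k d = n + 1}) (hnorm {d | k d = 0})
    (F := fun i : {d | k d = n + 1} => PowerSeries.C (PowerSeries.coeff 0 (F i))⁻¹ * F i)
    (F' := fun i : {d | k d = 0} => PowerSeries.C (PowerSeries.coeff 0 (F i))⁻¹ * F i)
    (fun i => isType_normal hR (h.odd i) (h.zero i))
    (fun i => isType_normal hR (h.odd i) (h.zero i)) ?_
  rintro ⟨a, ha⟩ ⟨b, hb⟩
  have ha' : k a = n + 1 := ha
  have hb' : k b = 0 := hb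
  have hab : a ≠ b := by
    rintro rfl
    omega
  have h1 := h.pair a b hab
  have h2 := h.top a
  have h3 := h.top b
  rw [ha', hb', add_zero] at h1
  rw [ha'] at h2
  rw [hb'] at h3
  simp only
  rw [h3, inv_one, map_one, one_mul, mul_assoc, PowerSeries.coeff_C_mul, PowerSeries.coeff_C_mul,
    h1, h2]

theorem core_finite {D : Type*} {R : PowerSeries ℂ} (hR : PowerSeries.coeff 0 R = 1)
    {lam : D → ℝ} {F : D → PowerSeries ℂ} {k : D → ℕ} (h : Data R lam F k) (M : ℕ) :
    {d | 1 ≤ k d ∧ k d ≤ M}.Finite := by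
  have h1 : {d | 1 ≤ k d ∧ k d ≤ M} ⊆ ⋃ n ∈ Finset.range M, {d | k d = n + 1} := by
    rintro d ⟨hd1, hd2⟩
    simp only [Set.mem_iUnion, Finset.mem_range, Set.mem_setOf_eq, exists_prop]
    exact ⟨k d - 1, by omega, by omega⟩
  refine Set.Finite.subset ?_ h1
  exact Set.Finite.biUnion (Finset.finite_toSet _) fun n _ => core_finite_one hR h n

end W92892c
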