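import Mathlib
import Pool.Agent.W_92892c_h28.RLemma

/-!
Bounded version of Lemma R.
-/

namespace W92892c

open Finset Matrix Filter Topology

/-- **Lemma R'** (bounded functionals without constant component). -/
theorem finrank_le_half_bounded {G : PowerSeries ℂ} (hG : PowerSeries.coeff 0 G = 1)
    {ι : Type*} {f : Filter ι} [f.NeBot] {x : ι → ℂ}
    (hx : Tendsto (fun i => ‖x i‖) f atTop) {F : ι → PowerSeries ℂ}
    (hF : ∀ i, IsType G (x i) (F i)) (n : ℕ) (Λ : Submodule ℂ (Fin (n + 1) → ℂ))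
    (hΛ0 : ∀ φ ∈ Λ, φ 0 = 0)
    (hΛ : ∀ φ ∈ Λ, Tendsto (fun i => (x i)⁻¹ *
      ∑ l : Fin (n + 1), φ l * PowerSeries.coeff (l : ℕ) (F i)) f (𝓝 0)) :
    Module.finrank ℂ Λ ≤ n / 2 := by
  classical
  by_contra hcon
  push Not at hcon
  obtain ⟨d, φ, hd, hφΛ, hφd, hφtop⟩ := distinct_tops (N := n / 2 + 1) Λ hcon
  have hex : ∃ t, t = n / 2 + 1 ∨ ∃ h : t < n / 2 + 1, ((d ⟨t, h⟩ : Fin (n + 1)) : ℕ) < 2 * t :=
    ⟨n / 2 + 1, Or.inl rfl⟩
  set t := Nat.find hex with ht
  have htN : t ≤ n / 2 + 1 := Nat.find_min' hex (Or.inl rfl)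
  have htspec := Nat.find_spec hex
  rw [← ht] at htspec
  have ht0 : 0 < t := by
    rcases Nat.eq_zero_or_pos t with h0 | h0
    · rw [h0] at htspec
      rcases htspec with h | ⟨h, h'⟩ <;> omega
    · exact h0
  have hlow : ∀ s : Fin t, 2 * (s : ℕ) ≤ (d (Fin.castLE htN s) : ℕ) := by
    intro s
    have h1 := Nat.find_min hex (m := (s : ℕ)) (by rw [← ht]; exact s.2)
    push Not at h1
    exact h1.2 (lt_of_lt_of_le s.2 htN)
  have hhigh : ∀ s : Fin t, (d (Fin.castLE htN s) : ℕ) < 2 * t := by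
    intro s
    rcases htspec with h | ⟨h, h'⟩
    · have := (d (Fin.castLE htN s)).2
      omega
    · have h2 : d (Fin.castLE htN s) < d ⟨t, h⟩ := hd (by
        show (Fin.castLE htN s : ℕ) < t
        simp)
      have h3 : (d (Fin.castLE htN s) : ℕ) < (d ⟨t, h⟩ : ℕ) := h2
      omega
  -- the matrices
  let A : ι → Matrix (Fin t) (Fin t) ℂ := fun i => Matrix.of fun s j =>
    ∑ l : Fin (n + 1), φ (Fin.castLE htN s) l * hh G l j (x i)
  have hd1 : ∀ s : Fin t, 1 ≤ (d (Fin.castLE htN s) : ℕ) := by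
    intro s
    rcases Nat.eq_zero_or_pos (d (Fin.castLE htN s) : ℕ) with h0 | h0
    · exfalso
      have h1 : d (Fin.castLE htN s) = 0 := Fin.ext h0
      have h2 := hφd (Fin.castLE htN s)
      rw [h1] at h2
      exact h2 (hΛ0 _ (hφΛ _))
    · exact h0
  choose E hE hE0 hFE using hF
  have hmul : ∀ i, (A i).mulVec (fun j : Fin t => PowerSeries.coeff (2 * (j : ℕ)) (E i))
      = fun s => ∑ l : Fin (n + 1), φ (Fin.castLE htN s) l *
          PowerSeries.coeff (l : ℕ) (F i) := by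
    intro i
    funext s
    simp only [Matrix.mulVec, dotProduct, A, Matrix.of_apply]
    simp only [Finset.sum_mul]
    rw [Finset.sum_comm]
    refine Finset.sum_congr rfl fun l _ => ?_
    by_cases hl : d (Fin.castLE htN s) < l
    · rw [hφtop _ l hl]; simp
    · have hl' : (l : ℕ) ≤ (d (Fin.castLE htN s) : ℕ) := not_lt.1 hl
      have h1 := coeff_type_eq G (E i) (x i) (hE i) t l (lt_of_le_of_lt hl' (hhigh s))
      rw [hFE i]
      unfold hser at h1
      rw [h1, Finset.mul_sum, Finset.sum_range]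
      refine Finset.sum_congr rfl fun j _ => ?_
      ring
  let B : ι → Matrix (Fin t) (Fin t) ℂ := fun i => Matrix.of fun s j =>
    ((x i) ^ (d (Fin.castLE htN s) : ℕ))⁻¹ * A i s j * (x i) ^ (2 * (j : ℕ))
  have hne : ∀ᶠ i in f, x i ≠ 0 := by
    filter_upwards [hx.eventually_gt_atTop 0] with i hi
    intro h; rw [h, norm_zero] at hi; exact lt_irrefl _ hi
  let v : ι → Fin t → ℂ := fun i j => ((x i) ^ (2 * (j : ℕ)))⁻¹ *
    PowerSeries.coeff (2 * (j : ℕ)) (E i)
  have hBv : ∀ᶠ i in f, (B i).mulVec (v i) = fun s =>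
      ((x i) ^ (d (Fin.castLE htN s) : ℕ))⁻¹ *
        ∑ l : Fin (n + 1), φ (Fin.castLE htN s) l * PowerSeries.coeff (l : ℕ) (F i) := by
    filter_upwards [hne] with i hi
    funext s
    have h1 := congrFun (hmul i) s
    rw [← h1]
    simp only [Matrix.mulVec, dotProduct, B, Matrix.of_apply, v, Finset.mul_sum]
    refine Finset.sum_congr rfl fun j _ => ?_
    have h2 : (x i) ^ (2 * (j : ℕ)) ≠ 0 := pow_ne_zero _ hi
    field_simp
  let C : Matrix (Fin t) (Fin t) ℂ := Matrix.of fun s j =>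
    φ (Fin.castLE htN s) (d (Fin.castLE htN s)) *
      ((ent (((d (Fin.castLE htN s) : ℕ) : ℤ) - (2 * (j : ℕ) : ℕ)) : ℝ) : ℂ)
  have htend' : ∀ s j, Tendsto (fun i => B i s j) f (𝓝 (C s j)) := by
    intro s j
    simp only [B, C, Matrix.of_apply, A]
    have hterm : ∀ l ∈ (Finset.univ : Finset (Fin (n + 1))), Tendsto
        (fun i => φ (Fin.castLE htN s) l *
          (((x i) ^ (d (Fin.castLE htN s) : ℕ))⁻¹ * hh G l j (x i) * (x i) ^ (2 * (j : ℕ)))) f
        (𝓝 (if l = d (Fin.castLE htN s) then φ (Fin.castLE htN s) (d (Fin.castLE htN s)) *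
      ((ent (((d (Fin.castLE htN s) : ℕ) : ℤ) - (2 * (j : ℕ) : ℕ)) : ℝ) : ℂ) else 0)) := by
      intro l _
      by_cases hl : d (Fin.castLE htN s) < l
      · rw [hφtop _ l hl, if_neg (ne_of_gt hl)]
        simp
      · have hl' : (l : ℕ) ≤ (d (Fin.castLE htN s) : ℕ) := not_lt.1 hl
        have h1 := (tendsto_hh hG hx (d (Fin.castLE htN s)) l j hl').const_mul
          (φ (Fin.castLE htN s) l)
        by_cases hld : l = d (Fin.castLE htN s)
        · rw [if_pos hld]
          have hld' : (l : ℕ) = (d (Fin.castLE htN s) : ℕ) := by rw [hld]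
          rw [if_pos hld'] at h1
          rw [hld] at h1 ⊢
          exact h1
        · rw [if_neg hld]
          have hld' : (l : ℕ) ≠ (d (Fin.castLE htN s) : ℕ) := fun h => hld (Fin.ext h)
          rw [if_neg hld', mul_zero] at h1
          exact h1
    have hsum := tendsto_finsetSum Finset.univ hterm
    rw [Finset.sum_ite_eq' Finset.univ (d (Fin.castLE htN s))] at hsum
    rw [if_pos (Finset.mem_univ _)] at hsum
    refine hsum.congr fun i => ?_
    rw [Finset.mul_sum, Finset.sum_mul]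
    refine Finset.sum_congr rfl fun l _ => ?_
    ring
  have htend : Tendsto B f (𝓝 C) :=
    tendsto_pi_nhds.2 fun s => tendsto_pi_nhds.2 fun j => htend' s j
  have hrhs : Tendsto (fun i => (B i).mulVec (v i)) f (𝓝 0) := by
    rw [tendsto_congr' hBv]
    rw [tendsto_pi_nhds]
    intro s
    have h1 := hΛ (φ (Fin.castLE htN s)) (hφΛ _)
    have h2 := tendsto_pow_ratio hx (d (Fin.castLE htN s) : ℕ) 1 (hd1 s)
    have h3 := h2.mul h1
    rw [mul_zero] at h3
    refine h3.congr' ?_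
    filter_upwards [hne] with i hi
    rw [pow_one]
    field_simp
  have hadj : ∀ i, ((B i).adjugate.mulVec ((B i).mulVec (v i))) ⟨0, ht0⟩ = (B i).det := by
    intro i
    rw [Matrix.mulVec_mulVec, Matrix.adjugate_mul, Matrix.smul_mulVec, Matrix.one_mulVec]
    simp only [Pi.smul_apply, smul_eq_mul, v]
    rw [mul_zero, hE0 i]
    simp
  have hdetC : C.det = 0 := by
    have h1 : Tendsto (fun i => (B i).det) f (𝓝 C.det) :=
      ((Continuous.matrix_det continuous_id).tendsto C).comp htend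
    have h2 : Tendsto (fun i => (B i).adjugate) f (𝓝 C.adjugate) :=
      ((Continuous.matrix_adjugate continuous_id).tendsto C).comp htend
    have h3 : Tendsto (fun i => ((B i).adjugate.mulVec ((B i).mulVec (v i))) ⟨0, ht0⟩) f
        (𝓝 ((C.adjugate.mulVec 0) ⟨0, ht0⟩)) := by
      simp only [Matrix.mulVec, dotProduct]
      refine tendsto_finsetSum _ fun j _ => ?_
      refine Tendsto.mul ?_ ?_
      · exact (tendsto_pi_nhds.1 ((tendsto_pi_nhds.1 h2) ⟨0, ht0⟩)) j
      · exact (tendsto_pi_nhds.1 hrhs) j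
    rw [Matrix.mulVec_zero] at h3
    simp only [hadj, Pi.zero_apply] at h3
    exact tendsto_nhds_unique h1 h3
  have hCdet : C.det = (∏ s : Fin t, φ (Fin.castLE htN s) (d (Fin.castLE htN s))) *
      (((tpMat (fun s : Fin t => ((d (Fin.castLE htN s) : ℕ) : ℤ))
        (fun j : Fin t => ((2 * (j : ℕ) : ℕ) : ℤ))).det : ℝ) : ℂ) := by
    have h1 : C = Matrix.of fun s j => φ (Fin.castLE htN s) (d (Fin.castLE htN s)) *
        ((Complex.ofRealHom.mapMatrix (tpMat (fun s : Fin t => ((d (Fin.castLE htN s) : ℕ) : ℤ))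
        (fun j : Fin t => ((2 * (j : ℕ) : ℕ) : ℤ))).transpose) s j) := by
      ext s j
      simp [C, tpMat]
    rw [h1, Matrix.det_mul_column, ← RingHom.map_det, Matrix.det_transpose]
    rfl
  have hpos : 0 < (tpMat (fun s : Fin t => ((d (Fin.castLE htN s) : ℕ) : ℤ))
        (fun j : Fin t => ((2 * (j : ℕ) : ℕ) : ℤ))).det := by
    apply tp_det_pos
    · intro a b hab
      have : d (Fin.castLE htN a) < d (Fin.castLE htN b) := hd (by
        show (Fin.castLE htN a : ℕ) < (Fin.castLE htN b : ℕ)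
        simpa using hab)
      have h3 : (d (Fin.castLE htN a) : ℕ) < (d (Fin.castLE htN b) : ℕ) := this
      show ((d (Fin.castLE htN a) : ℕ) : ℤ) < ((d (Fin.castLE htN b) : ℕ) : ℤ)
      exact_mod_cast h3
    · intro a b hab
      have h3 : (a : ℕ) < (b : ℕ) := hab
      show ((2 * (a : ℕ) : ℕ) : ℤ) < ((2 * (b : ℕ) : ℕ) : ℤ)
      exact_mod_cast (by omega : 2 * (a : ℕ) < 2 * (b : ℕ))
    · intro s
      show ((2 * (s : ℕ) : ℕ) : ℤ) ≤ ((d (Fin.castLE htN s) : ℕ) : ℤ)
      exact_mod_cast hlow s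
  rw [hCdet] at hdetC
  rcases mul_eq_zero.1 hdetC with h | h
  · obtain ⟨s, _, hs⟩ := Finset.prod_eq_zero_iff.1 h
    exact hφd _ hs
  · have : (tpMat (fun s : Fin t => ((d (Fin.castLE htN s) : ℕ) : ℤ))
        (fun j : Fin t => ((2 * (j : ℕ) : ℕ) : ℤ))).det = 0 := by exact_mod_cast h
    rw [this] at hpos
    exact lt_irrefl _ hpos

end W92892c
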