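import Mathlib
import Pool.Agent.W_92892c_h28.Core

namespace W92892c

open Finset Filter Topology

lemma prod_eq_X_pow {D : Type*} [DecidableEq D] (S : Finset D) (μ : D → PowerSeries ℂ)
    (hμ : ∀ s ∈ S, PowerSeries.coeff 0 (μ s) = 0) :
    ∃ N : PowerSeries ℂ, ∏ s ∈ S, μ s = PowerSeries.X ^ S.card * N ∧
      PowerSeries.coeff 0 N = ∏ s ∈ S, PowerSeries.coeff 1 (μ s) := by
  induction S using Finset.induction_on with
  | empty => exact ⟨1, by simp, by simp⟩
  | insert s S hs ih =>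
    obtain ⟨N, hN, hN0⟩ := ih fun t ht => hμ t (Finset.mem_insert_of_mem ht)
    have h0 := hμ s (Finset.mem_insert_self _ _)
    rw [PowerSeries.coeff_zero_eq_constantCoeff_apply, ← PowerSeries.X_dvd_iff] at h0
    obtain ⟨ν, hν⟩ := h0
    refine ⟨ν * N, ?_, ?_⟩
    · rw [Finset.prod_insert hs, Finset.card_insert_of_notMem hs, hN, hν, pow_succ]
      ring
    · rw [Finset.prod_insert hs, PowerSeries.coeff_zero_eq_constantCoeff_apply, map_mul,
        ← PowerSeries.coeff_zero_eq_constantCoeff_apply,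
        ← PowerSeries.coeff_zero_eq_constantCoeff_apply, hN0, hν]
      congr 1
      rw [show (1 : ℕ) = 0 + 1 by rfl, PowerSeries.coeff_succ_X_mul]

lemma coeff_mul_prod_lt {D : Type*} [DecidableEq D] (A : PowerSeries ℂ) (S : Finset D)
    (μ : D → PowerSeries ℂ) (hμ : ∀ s ∈ S, PowerSeries.coeff 0 (μ s) = 0) (n : ℕ)
    (hn : n < S.card) : PowerSeries.coeff n (A * ∏ s ∈ S, μ s) = 0 := by
  obtain ⟨N, hN, _⟩ := prod_eq_X_pow S μ hμ
  rw [hN, show A * (PowerSeries.X ^ S.card * N) = PowerSeries.X ^ S.card * (A * N) by ring,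
    PowerSeries.coeff_X_pow_mul', if_neg (by omega)]

lemma coeff_mul_prod_eq {D : Type*} [DecidableEq D] (A : PowerSeries ℂ) (S : Finset D)
    (μ : D → PowerSeries ℂ) (hμ : ∀ s ∈ S, PowerSeries.coeff 0 (μ s) = 0) :
    PowerSeries.coeff S.card (A * ∏ s ∈ S, μ s)
      = PowerSeries.coeff 0 A * ∏ s ∈ S, PowerSeries.coeff 1 (μ s) := by
  obtain ⟨N, hN, hN0⟩ := prod_eq_X_pow S μ hμ
  rw [hN, show A * (PowerSeries.X ^ S.card * N) = PowerSeries.X ^ S.card * (A * N) by ring,
    PowerSeries.coeff_X_pow_mul', if_pos le_rfl, Nat.sub_self, ← hN0,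
    PowerSeries.coeff_zero_eq_constantCoeff_apply, map_mul,
    ← PowerSeries.coeff_zero_eq_constantCoeff_apply,
    ← PowerSeries.coeff_zero_eq_constantCoeff_apply]

lemma coeff_one_of_odd {R : PowerSeries ℂ} (hR : PowerSeries.coeff 0 R = 1) {lam : ℝ}
    {F : PowerSeries ℂ} (hodd : PowerSeries.coeff 1
      (F * PowerSeries.rescale (lam : ℂ) (PowerSeries.exp ℂ) * R) = 0)
    (h0 : PowerSeries.coeff 0 F = 1) :
    PowerSeries.coeff 1 F = -((lam : ℂ) + PowerSeries.coeff 1 R) := by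
  have hanti : antidiagonal 1 = {((0 : ℕ), (1 : ℕ)), (1, 0)} := by decide
  have hz : antidiagonal 0 = {((0 : ℕ), (0 : ℕ))} := by decide
  rw [PowerSeries.coeff_mul, hanti, Finset.sum_pair (by decide)] at hodd
  simp only [PowerSeries.coeff_mul, hanti] at hodd
  rw [Finset.sum_pair (by decide)] at hodd
  simp only [hz, Finset.sum_singleton, PowerSeries.coeff_rescale,
    PowerSeries.coeff_exp, h0, hR] at hodd
  have e1 : (algebraMap ℚ ℂ) (1 / ((1 : ℕ).factorial : ℚ)) = 1 := by simp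
  have e0 : (algebraMap ℚ ℂ) (1 / ((0 : ℕ).factorial : ℚ)) = 1 := by simp
  rw [e1, e0] at hodd
  linear_combination hodd

/-- Real part of a product of numbers close to large positive reals. -/
lemma re_prod_pos {D : Type*} (S : Finset D) (n : ℕ) (hS : S.card ≤ n) (x : D → ℝ) (g : ℂ)
    (hx : ∀ s ∈ S, 2 * (n : ℝ) * ‖g‖ + 1 ≤ x s) :
    0 < (∏ s ∈ S, ((x s : ℂ) + g)).re := by
  classical
  have hpos : ∀ s ∈ S, 0 < x s := by
    intro s hs
    have := hx s hs
    have h1 : 0 ≤ 2 * (n : ℝ) * ‖g‖ := by positivity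
    linarith
  have h1 : ∏ s ∈ S, ((x s : ℂ) + g) = ((∏ s ∈ S, x s : ℝ) : ℂ) * ∏ s ∈ S, (1 + g / (x s : ℂ)) := by
    push_cast
    rw [← Finset.prod_mul_distrib]
    refine Finset.prod_congr rfl fun s hs => ?_
    have : (x s : ℂ) ≠ 0 := by exact_mod_cast (hpos s hs).ne'
    field_simp
  have h2 : ‖∏ s ∈ S, (1 + g / (x s : ℂ)) - 1‖ < 1 := by
    refine (Finset.norm_prod_one_add_sub_one_le S _).trans_lt ?_
    have h3 : ∑ s ∈ S, ‖g / (x s : ℂ)‖ ≤ 1 / 2 := by
      rcases Nat.eq_zero_or_pos n with hn | hn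
      · have : S = ∅ := Finset.card_eq_zero.1 (by omega)
        rw [this]; simp
      have h4 : ∀ s ∈ S, ‖g / (x s : ℂ)‖ ≤ 1 / (2 * (n : ℝ)) := by
        intro s hs
        rw [norm_div, Complex.norm_real, Real.norm_eq_abs, abs_of_pos (hpos s hs),
          div_le_div_iff₀ (hpos s hs) (by positivity)]
        have := hx s hs
        have hn' : (0 : ℝ) < n := by exact_mod_cast hn
        nlinarith [norm_nonneg g]
      calc ∑ s ∈ S, ‖g / (x s : ℂ)‖ ≤ ∑ s ∈ S, 1 / (2 * (n : ℝ)) := Finset.sum_le_sum h4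
        _ = S.card * (1 / (2 * (n : ℝ))) := by rw [Finset.sum_const, nsmul_eq_mul]
        _ ≤ n * (1 / (2 * (n : ℝ))) := by
            apply mul_le_mul_of_nonneg_right _ (by positivity)
            exact_mod_cast hS
        _ = 1 / 2 := by
            have hn' : (n : ℝ) ≠ 0 := by positivity
            field_simp
    have h5 : Real.exp (∑ s ∈ S, ‖g / (x s : ℂ)‖) ≤ Real.exp (1 / 2) := Real.exp_le_exp.2 h3
    have h6 : Real.exp (1 / 2) < 2 := by
      have h7 : Real.exp (1 / 2) ^ 2 = Real.exp 1 := by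
        rw [← Real.exp_nat_mul]; norm_num
      have h8 := Real.exp_one_lt_d9
      by_contra hcon
      push Not at hcon
      nlinarith
    linarith
  rw [h1, Complex.re_ofReal_mul]
  refine mul_pos (Finset.prod_pos hpos) ?_
  have h3 : -(∏ s ∈ S, (1 + g / (x s : ℂ)) - 1).re ≤ ‖∏ s ∈ S, (1 + g / (x s : ℂ)) - 1‖ :=
    (neg_le_abs _).trans (Complex.abs_re_le_norm _)
  rw [Complex.sub_re, Complex.one_re] at h3
  linarith

theorem core_zero {D : Type*} [AddCommGroup D] (h2 : ∀ d : D, d + d = 0)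
    (ω : D → ℕ) (hω : ∀ a b, ω (a + b) ≤ ω a + ω b) (hω1 : {v | ω v ≤ 1}.Infinite)
    {R : PowerSeries ℂ} (hR : PowerSeries.coeff 0 R = 1)
    {lam : D → ℝ} {F : D → PowerSeries ℂ} {k : D → ℕ} (h : Data R lam F k)
    (hbdd : ∀ n, ∃ M, ∀ d, ω d ≤ n → k d ≤ M) (a : D)
    (hV : ∀ V : Finset D, 0 ∈ V → (∀ u ∈ V, ∀ v ∈ V, u + v ∈ V) → V.card ≤ 2 ^ k a →
      PowerSeries.coeff (∑ v ∈ V, k (a + v)) (∏ v ∈ V, F (a + v)) = 1) :
    k a = 0 := by
  classical
  by_contra hne
  set k0 := k a with hk0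
  have hk1 : 1 ≤ k0 := Nat.one_le_iff_ne_zero.2 hne
  set g : ℂ := PowerSeries.coeff 1 R with hg
  set B : ℝ := 2 * (k0 : ℝ) * ‖g‖ + 1 with hB
  -- the bad set
  have hbadfin : ({d | ω d ≤ ω a + k0 ∧ 1 ≤ k d} ∪ {d | ¬ B ≤ lam d}).Finite := by
    refine Set.Finite.union ?_ ?_
    · obtain ⟨M, hM⟩ := hbdd (ω a + k0)
      refine (core_finite hR h M).subset ?_
      rintro d ⟨hd1, hd2⟩
      exact ⟨hd2, hM d hd1⟩
    · exact Filter.eventually_cofinite.1 (h.grow.eventually_ge_atTop B)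
  set bad : Finset D := hbadfin.toFinset with hbad
  have hmembad : ∀ d, d ∈ bad ↔ (ω d ≤ ω a + k0 ∧ 1 ≤ k d) ∨ ¬ B ≤ lam d := by
    intro d
    rw [hbad, Set.Finite.mem_toFinset]
    rfl
  -- generators
  have hgen : ∀ j : ℕ, ∃ S : Finset D, S.card = j ∧ (0 : D) ∉ S ∧ (cl S).card = 2 ^ j ∧
      ∀ v ∈ cl S, v ≠ 0 → a + v ∉ bad ∧ ω v ≤ j := by
    intro j
    induction j with
    | zero =>
      refine ⟨∅, rfl, by simp, by rw [cl_empty]; simp, ?_⟩
      intro v hv hv0
      rw [cl_empty, Finset.mem_singleton] at hv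
      exact absurd hv hv0
    | succ j ih =>
      obtain ⟨S, hScard, hS0, hScl, hSv⟩ := ih
      set Q : Finset D := cl S ∪ (bad ×ˢ cl S).image (fun q => q.1 - a - q.2) with hQ
      obtain ⟨w, hw1, hwQ⟩ := hω1.exists_notMem_finset Q
      rw [hQ, Finset.mem_union, not_or] at hwQ
      obtain ⟨hwcl, hwim⟩ := hwQ
      obtain ⟨hins, hcard⟩ := cl_insert h2 S w hwcl
      have hwS : w ∉ S := fun hh => hwcl (subset_cl S hh)
      have hw0 : w ≠ 0 := fun hh => hwcl (by rw [hh]; exact zero_mem_cl S)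
      refine ⟨insert w S, by rw [Finset.card_insert_of_notMem hwS, hScard], ?_, ?_, ?_⟩
      · rw [Finset.mem_insert, not_or]
        exact ⟨fun hh => hw0 hh.symm, hS0⟩
      · rw [hcard, hScl, pow_succ]; ring
      · intro v hv hv0
        rcases hins v hv with hv' | ⟨u, hu, rfl⟩
        · obtain ⟨h3, h4⟩ := hSv v hv' hv0
          exact ⟨h3, by omega⟩
        · refine ⟨?_, ?_⟩
          · intro hh
            apply hwim
            refine Finset.mem_image.2 ⟨(a + (w + u), u), Finset.mem_product.2 ⟨hh, hu⟩, ?_⟩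
            simp only
            abel
          · by_cases hu0 : u = 0
            · rw [hu0, add_zero]
              have : ω w ≤ 1 := hw1
              omega
            · have h3 := (hSv u hu hu0).2
              have h4 : ω w ≤ 1 := hw1
              have h5 := hω w u
              omega
  obtain ⟨S, hScard, hS0, hScl, hSv⟩ := hgen k0
  set V := cl S with hVdef
  have hVsub : IsSub V := isSub_cl h2 S
  have hgood : ∀ v ∈ V, v ≠ 0 → k (a + v) = 0 ∧ B ≤ lam (a + v) := by
    intro v hv hv0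
    obtain ⟨h3, h4⟩ := hSv v hv hv0
    rw [hmembad, not_or, not_not] at h3
    refine ⟨?_, h3.2⟩
    have h5 := hω a v
    by_contra hcon
    exact h3.1 ⟨by omega, by omega⟩
  let c : Finset D → ℂ := fun T =>
    PowerSeries.coeff k0 (F a * ∏ s ∈ T, (F (a + s) - 1))
  have hc0 : c ∅ = 1 := by
    simp only [c, Finset.prod_empty, mul_one]
    exact h.top a
  have hW : ∀ W ⊆ V, IsSub W → ∑ T ∈ (W.erase 0).powerset, c T = c ∅ := by
    intro W hWV hWsub
    rw [hc0]
    have h3 := hV W hWsub.1 hWsub.2 ((Finset.card_le_card hWV).trans_eq hScl)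
    rw [← Finset.add_sum_erase W _ hWsub.1, ← Finset.mul_prod_erase W _ hWsub.1, add_zero] at h3
    have h4 : ∑ v ∈ W.erase 0, k (a + v) = 0 :=
      Finset.sum_eq_zero fun v hv =>
        (hgood v (hWV (Finset.mem_of_mem_erase hv)) (Finset.ne_of_mem_erase hv)).1
    rw [h4, add_zero, ← hk0] at h3
    have h5 : ∏ v ∈ W.erase 0, F (a + v) = ∏ v ∈ W.erase 0, (1 + (F (a + v) - 1)) :=
      Finset.prod_congr rfl fun v _ => by ring
    rw [h5, Finset.prod_one_add, Finset.mul_sum, map_sum] at h3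
    exact h3
  have hVne : V ≠ {0} := by
    intro hh
    rw [hh, Finset.card_singleton] at hScl
    have : 2 ≤ 2 ^ k0 := by
      calc 2 = 2 ^ 1 := by norm_num
        _ ≤ 2 ^ k0 := Nat.pow_le_pow_right (by norm_num) hk1
    omega
  have hpsi := psi_zero h2 c V hW V.card V le_rfl (Finset.Subset.refl _) hVsub hVne
  -- evaluate
  have hmu : ∀ T ⊆ V.erase 0, ∀ s ∈ T, PowerSeries.coeff 0 (F (a + s) - 1) = 0 := by
    intro T hT s hs
    have h3 := Finset.mem_erase.1 (hT hs)
    have h4 := h.top (a + s)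
    rw [(hgood s h3.2 h3.1).1] at h4
    rw [map_sub, h4]
    simp
  have hcval : ∀ T ∈ (V.erase 0).powerset.filter (fun T => cl T = V),
      c T = if T.card = k0 then (-1) ^ k0 * (PowerSeries.coeff 0 (F a) *
        ∏ s ∈ T, ((lam (a + s) : ℂ) + g)) else 0 := by
    intro T hT
    rw [Finset.mem_filter, Finset.mem_powerset] at hT
    obtain ⟨hTV, hTcl⟩ := hT
    have hle : k0 ≤ T.card := by
      have h3 := card_cl_le T
      rw [hTcl, hScl] at h3
      exact (Nat.pow_le_pow_iff_right (by norm_num)).1 h3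
    split_ifs with hcard
    · simp only [c]
      rw [← hcard, coeff_mul_prod_eq _ _ _ (hmu T hTV)]
      have h4 : ∀ s ∈ T, PowerSeries.coeff 1 (F (a + s) - 1) =
          (-1) * ((lam (a + s) : ℂ) + g) := by
        intro s hs
        have h3 := Finset.mem_erase.1 (hTV hs)
        have h5 := h.top (a + s)
        rw [(hgood s h3.2 h3.1).1] at h5
        have h6 := coeff_one_of_odd hR (h.odd (a + s) 1 odd_one) h5
        rw [map_sub, h6, ← hg]
        have h7 : PowerSeries.coeff 1 (1 : PowerSeries ℂ) = 0 := by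
          rw [PowerSeries.coeff_one]; simp
        rw [h7]
        ring
      rw [Finset.prod_congr rfl h4, Finset.prod_mul_distrib, Finset.prod_const]
      ring
    · exact coeff_mul_prod_lt _ _ _ (hmu T hTV) _ (by omega)
  rw [Finset.sum_congr rfl hcval, ← Finset.sum_filter, ← Finset.mul_sum, ← Finset.mul_sum] at hpsi
  have hf0 := h.zero a
  have hsum0 : ∑ T ∈ ((V.erase 0).powerset.filter (fun T => cl T = V)).filter
      (fun T => T.card = k0), ∏ s ∈ T, ((lam (a + s) : ℂ) + g) = 0 := by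
    rcases mul_eq_zero.1 hpsi with h3 | h3
    · exact absurd h3 (pow_ne_zero _ (by norm_num))
    · rcases mul_eq_zero.1 h3 with h4 | h4
      · exact absurd h4 hf0
      · exact h4
  have hpos : 0 < (∑ T ∈ ((V.erase 0).powerset.filter (fun T => cl T = V)).filter
      (fun T => T.card = k0), ∏ s ∈ T, ((lam (a + s) : ℂ) + g)).re := by
    rw [Complex.re_sum]
    apply Finset.sum_pos
    · intro T hT
      rw [Finset.mem_filter, Finset.mem_filter, Finset.mem_powerset] at hT
      obtain ⟨⟨hTV, _⟩, hcard⟩ := hT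
      refine re_prod_pos T k0 hcard.le (fun s => lam (a + s)) g ?_
      intro s hs
      have h3 := Finset.mem_erase.1 (hTV hs)
      exact (hgood s h3.2 h3.1).2
    · refine ⟨S, ?_⟩
      rw [Finset.mem_filter, Finset.mem_filter, Finset.mem_powerset]
      refine ⟨⟨?_, rfl⟩, hScard⟩
      intro s hs
      exact Finset.mem_erase.2 ⟨fun hh => hS0 (hh ▸ hs), subset_cl S hs⟩
  rw [hsum0] at hpos
  simp at hpos

end W92892c
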