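import Mathlib
import Pool.Agent.W_92892c_h28.Step1
import Pool.Agent.W_92892c_h28.RBound

/-!
Step 1 with bounded pairs.
-/

namespace W92892c

open Finset Matrix Filter Topology

theorem no_pair_bounded {G : PowerSeries ℂ} (hG : PowerSeries.coeff 0 G = 1) (n : ℕ)
    {ι ι' : Type*} {f : Filter ι} {f' : Filter ι'} [f.NeBot] [f'.NeBot] {x : ι → ℂ} {x' : ι' → ℂ}
    (hx : Tendsto (fun i => ‖x i‖) f atTop) (hx' : Tendsto (fun i => ‖x' i‖) f' atTop)
    {F : ι → PowerSeries ℂ} {F' : ι' → PowerSeries ℂ}
    (hF : ∀ i, IsType G (x i) (F i)) (hF' : ∀ i, IsType G (x' i) (F' i))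
    (h : ∀ i, Tendsto (fun i' => (x' i')⁻¹ * PowerSeries.coeff (n + 1) (F i * F' i')) f' (𝓝 0)) :
    False := by
  classical
  -- the functionals killing the family `F`
  let ΛA : Submodule ℂ (Fin (n + 1) → ℂ) :=
    { carrier := {φ | ∀ i, ∑ l : Fin (n + 1), φ l * PowerSeries.coeff (l : ℕ) (F i) = 0}
      add_mem' := by
        intro a b ha hb i
        simp only [Pi.add_apply, add_mul, Finset.sum_add_distrib]
        rw [ha i, hb i, add_zero]
      zero_mem' := by intro i; simp
      smul_mem' := by
        intro c a ha i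
        simp only [Pi.smul_apply, smul_eq_mul, mul_assoc]
        rw [← Finset.mul_sum, ha i, mul_zero] }
  have hA : Module.finrank ℂ ΛA ≤ n / 2 :=
    finrank_le_half hG hx hF n ΛA fun φ hφ i => hφ i
  let ψ : ι → Fin (n + 1) → ℂ := fun i l => PowerSeries.coeff (l : ℕ) (F i)
  let 𝓐 : Submodule ℂ (Fin (n + 1) → ℂ) := Submodule.span ℂ (Set.range ψ)
  let T : (Fin (n + 1) → ℂ) →ₗ[ℂ] Module.Dual ℂ 𝓐 :=
    { toFun := fun v =>
        { toFun := fun b => ∑ l, v l * (b : Fin (n + 1) → ℂ) l
          map_add' := by
            intro a b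
            simp only [Submodule.coe_add, Pi.add_apply, mul_add, Finset.sum_add_distrib]
          map_smul' := by
            intro c a
            simp only [Submodule.coe_smul, Pi.smul_apply, smul_eq_mul, RingHom.id_apply,
              Finset.mul_sum]
            exact Finset.sum_congr rfl fun l _ => by ring }
      map_add' := by
        intro a b
        ext c
        simp only [Pi.add_apply, add_mul, Finset.sum_add_distrib, LinearMap.coe_mk,
          AddHom.coe_mk, LinearMap.add_apply]
      map_smul' := by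
        intro c a
        ext b
        simp only [Pi.smul_apply, smul_eq_mul, RingHom.id_apply, LinearMap.coe_mk,
          AddHom.coe_mk, LinearMap.smul_apply, Finset.mul_sum]
        exact Finset.sum_congr rfl fun l _ => by ring }
  have hkerle : LinearMap.ker T ≤ ΛA := by
    intro v hv i
    have h1 : T v ⟨ψ i, Submodule.subset_span ⟨i, rfl⟩⟩ = 0 := by
      rw [LinearMap.mem_ker.1 hv]; rfl
    exact h1
  have hArank : n + 1 - n / 2 ≤ Module.finrank ℂ 𝓐 := by
    have h1 := LinearMap.finrank_range_add_finrank_ker T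
    have h2 : Module.finrank ℂ (LinearMap.range T) ≤ Module.finrank ℂ 𝓐 := by
      refine (Submodule.finrank_le _).trans ?_
      rw [Subspace.dual_finrank_eq]
    have h3 := (Submodule.finrank_mono hkerle).trans hA
    rw [Module.finrank_fin_fun] at h1
    omega
  have hxinv : Tendsto (fun i => (x' i)⁻¹) f' (𝓝 0) := by
    rw [tendsto_zero_iff_norm_tendsto_zero]
    simp only [norm_inv]
    exact tendsto_inv_atTop_zero.comp hx'
  let ΛB : Submodule ℂ (Fin (n + 1 + 1) → ℂ) :=
    { carrier := {φ | φ 0 = 0 ∧ Tendsto (fun i => (x' i)⁻¹ *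
        ∑ l : Fin (n + 1 + 1), φ l * PowerSeries.coeff (l : ℕ) (F' i)) f' (𝓝 0)}
      add_mem' := by
        rintro a b ⟨ha0, ha⟩ ⟨hb0, hb⟩
        refine ⟨by rw [Pi.add_apply, ha0, hb0, add_zero], ?_⟩
        have h1 := ha.add hb
        rw [add_zero] at h1
        refine h1.congr fun i => ?_
        simp only [Pi.add_apply, add_mul, Finset.sum_add_distrib]
        ring
      zero_mem' := by
        refine ⟨rfl, ?_⟩
        simp
      smul_mem' := by
        rintro c a ⟨ha0, ha⟩
        refine ⟨by rw [Pi.smul_apply, ha0, smul_zero], ?_⟩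
        have h1 := ha.const_mul c
        rw [mul_zero] at h1
        refine h1.congr fun i => ?_
        simp only [Pi.smul_apply, smul_eq_mul, mul_assoc, ← Finset.mul_sum]
        ring }
  have hΛB : Module.finrank ℂ ΛB ≤ (n + 1) / 2 :=
    finrank_le_half_bounded hG hx' hF' (n + 1) ΛB (fun φ hφ => hφ.1) (fun φ hφ => hφ.2)
  -- the reversal map
  let S0 : (Fin (n + 1) → ℂ) →ₗ[ℂ] (Fin (n + 1 + 1) → ℂ) :=
    { toFun := fun v => Fin.cons 0 (fun j : Fin (n + 1) => v (Fin.rev j))
      map_add' := by
        intro a b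
        funext j
        refine Fin.cases ?_ (fun j => ?_) j
        · simp
        · simp
      map_smul' := by
        intro c a
        funext j
        refine Fin.cases ?_ (fun j => ?_) j
        · simp
        · simp }
  have hS0inj : Function.Injective S0 := by
    intro a b hab
    funext j
    have h1 := congrFun hab (Fin.succ (Fin.rev j))
    simpa [S0] using h1
  have hmap : 𝓐.map S0 ≤ ΛB := by
    rw [Submodule.map_span_le]
    rintro _ ⟨i, rfl⟩
    refine ⟨by simp [S0], ?_⟩
    have hkey : ∀ i', ∑ l : Fin (n + 1 + 1), S0 (ψ i) l * PowerSeries.coeff (l : ℕ) (F' i')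
        = PowerSeries.coeff (n + 1) (F i * F' i') - PowerSeries.coeff (n + 1) (F i) := by
      intro i'
      rw [PowerSeries.coeff_mul, Finset.Nat.sum_antidiagonal_eq_sum_range_succ
        (fun a b => PowerSeries.coeff a (F i) * PowerSeries.coeff b (F' i')) (n + 1),
        Finset.sum_range_succ, Nat.sub_self, (hF' i').coeff_zero hG, mul_one,
        Finset.sum_range, add_sub_cancel_right]
      rw [Fin.sum_univ_succ]
      simp only [S0, LinearMap.coe_mk, AddHom.coe_mk, Fin.cons_zero, zero_mul, zero_add,
        Fin.cons_succ]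
      rw [← Equiv.sum_comp Fin.revPerm]
      refine Finset.sum_congr rfl fun j _ => ?_
      rw [Fin.revPerm_apply, Fin.rev_rev]
      congr 2
      rw [Fin.val_succ, Fin.val_rev]
      have := j.2
      congr 1
      omega
    simp only [hkey]
    have h1 := (h i).sub (hxinv.mul_const (PowerSeries.coeff (n + 1) (F i)))
    rw [zero_mul, sub_zero] at h1
    refine h1.congr fun i' => ?_
    ring
  have hfin : Module.finrank ℂ 𝓐 ≤ Module.finrank ℂ ΛB := by
    have h1 : Module.finrank ℂ (𝓐.map S0) = Module.finrank ℂ 𝓐 :=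
      (LinearEquiv.finrank_eq (Submodule.equivMapOfInjective S0 hS0inj 𝓐)).symm
    rw [← h1]
    exact Submodule.finrank_mono hmap
  omega

end W92892c
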