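import Mathlib
import Pool.Agent.W_92892c_h28.Step1B
import Pool.Agent.W_92892c_h28.Core2

/-!
Core with bounded quotients.
-/

namespace W92892c

open Finset Filter Topology

/-- Normalised Taylor data, with bounded quotients for the pairs `{a, b}`, `b ∈ BB`. -/
structure DataB {D : Type*} (BB : Set D) (R : PowerSeries ℂ) (lam : D → ℝ)
    (F : D → PowerSeries ℂ) (k : D → ℕ) : Prop where
  odd : ∀ d j, Odd j → PowerSeries.coeff j
    (F d * PowerSeries.rescale (lam d : ℂ) (PowerSeries.exp ℂ) * R) = 0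
  zero : ∀ d, PowerSeries.coeff 0 (F d) ≠ 0
  top : ∀ d, PowerSeries.coeff (k d) (F d) = 1
  grow : Tendsto lam cofinite atTop
  inf : BB.Infinite
  good : ∀ b ∈ BB, k b = 0
  pair : ∀ a, ∃ B : ℝ, ∀ b ∈ BB, b ≠ a → ‖PowerSeries.coeff (k a + k b) (F a * F b)‖ ≤ B

theorem coreB_finite_one {D : Type*} {BB : Set D} {R : PowerSeries ℂ}
    (hR : PowerSeries.coeff 0 R = 1)
    {lam : D → ℝ} {F : D → PowerSeries ℂ} {k : D → ℕ} (h : DataB BB R lam F k) (n : ℕ) :
    {d | k d = n + 1}.Finite := by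
  by_contra hinf
  have hinf' : {d | k d = n + 1}.Infinite := hinf
  have : Infinite {d | k d = n + 1} := hinf'.to_subtype
  have : Infinite BB := h.inf.to_subtype
  have hnorm : ∀ s : Set D, Tendsto (fun i : s => ‖((-lam i : ℝ) : ℂ)‖) cofinite atTop := by
    intro s
    have h1 : Tendsto (fun i : s => lam i) cofinite atTop :=
      h.grow.comp Subtype.val_injective.tendsto_cofinite
    have h2 := tendsto_abs_atTop_atTop.comp h1
    refine h2.congr fun i => ?_
    simp only [Function.comp, Complex.norm_real, Real.norm_eq_abs, abs_neg]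
  have hR' : PowerSeries.coeff 0 R⁻¹ = 1 := by
    rw [PowerSeries.coeff_zero_eq_constantCoeff_apply, PowerSeries.constantCoeff_inv,
      ← PowerSeries.coeff_zero_eq_constantCoeff_apply, hR, inv_one]
  refine no_pair_bounded (G := R⁻¹) hR' n (hnorm {d | k d = n + 1}) (hnorm BB)
    (F := fun i : {d | k d = n + 1} => PowerSeries.C (PowerSeries.coeff 0 (F i))⁻¹ * F i)
    (F' := fun i : BB => PowerSeries.C (PowerSeries.coeff 0 (F i))⁻¹ * F i)
    (fun i => isType_normal hR (h.odd i) (h.zero i))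
    (fun i => isType_normal hR (h.odd i) (h.zero i)) ?_
  rintro ⟨a, ha⟩
  have ha' : k a = n + 1 := ha
  obtain ⟨B, hB⟩ := h.pair a
  have hxinv : Tendsto (fun i : BB => ‖((-lam i : ℝ) : ℂ)‖⁻¹) cofinite (𝓝 0) :=
    tendsto_inv_atTop_zero.comp (hnorm BB)
  have hbd := hxinv.mul_const (‖(PowerSeries.coeff 0 (F a))⁻¹‖ * B)
  rw [zero_mul] at hbd
  refine squeeze_zero_norm (fun i => ?_) hbd
  obtain ⟨b, hb⟩ := i
  have hb' : k b = 0 := h.good b hb
  have hab : b ≠ a := by
    rintro rfl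
    omega
  have h1 := hB b hb hab
  have h3 := h.top b
  rw [ha', hb', add_zero] at h1
  rw [hb'] at h3
  simp only
  rw [h3, inv_one, map_one, one_mul, mul_assoc, PowerSeries.coeff_C_mul, norm_mul, norm_mul,
    norm_inv]
  have h4 : 0 ≤ ‖((-lam b : ℝ) : ℂ)‖⁻¹ := by positivity
  have h5 : 0 ≤ ‖(PowerSeries.coeff 0 (F a))⁻¹‖ := norm_nonneg _
  gcongr

theorem coreB_finite {D : Type*} {BB : Set D} {R : PowerSeries ℂ}
    (hR : PowerSeries.coeff 0 R = 1)
    {lam : D → ℝ} {F : D → PowerSeries ℂ} {k : D → ℕ} (h : DataB BB R lam F k) (M : ℕ) :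
    {d | 1 ≤ k d ∧ k d ≤ M}.Finite := by
  have h1 : {d | 1 ≤ k d ∧ k d ≤ M} ⊆ ⋃ n ∈ Finset.range M, {d | k d = n + 1} := by
    rintro d ⟨hd1, hd2⟩
    simp only [Set.mem_iUnion, Finset.mem_range, Set.mem_ofPred_eq, exists_prop]
    exact ⟨k d - 1, by omega, by omega⟩
  refine Set.Finite.subset ?_ h1
  exact Set.Finite.biUnion (Finset.finite_toSet _) fun n _ => coreB_finite_one hR h n

/-- Inversion over spanning sets, with bounds. -/
theorem psi_bound {D : Type*} [AddCommGroup D] [DecidableEq D] (h2 : ∀ d : D, d + d = 0)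
    (c : Finset D → ℂ) (V : Finset D) (B : ℝ) (hB : 0 ≤ B)
    (h : ∀ W ⊆ V, IsSub W → ‖∑ S ∈ (W.erase 0).powerset, c S‖ ≤ B) :
    ∀ (n : ℕ) (W : Finset D), W.card ≤ n → W ⊆ V → IsSub W →
      ‖∑ S ∈ (W.erase 0).powerset.filter (fun S => cl S = W), c S‖
        ≤ B * ((2 : ℝ) ^ V.card + 1) ^ n := by
  intro n
  induction n with
  | zero =>
    intro W hW _ hsub
    exact absurd (Finset.card_pos.2 ⟨0, hsub.1⟩) (by omega)
  | succ n ih =>
    intro W hWn hWV hsub
    have hmaps : ∀ S ∈ (W.erase 0).powerset, cl S ∈ (W.erase 0).powerset.image cl :=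
      fun S hS => Finset.mem_image_of_mem _ hS
    have hfib := Finset.sum_fiberwise_of_maps_to hmaps c
    have hspan : cl (W.erase 0) = W := by
      apply Finset.Subset.antisymm (cl_subset hsub (Finset.erase_subset _ _))
      intro x hx
      by_cases hx0 : x = 0
      · rw [hx0]; exact zero_mem_cl _
      · exact subset_cl _ (Finset.mem_erase.2 ⟨hx0, hx⟩)
    have hmemW : W ∈ (W.erase 0).powerset.image cl :=
      Finset.mem_image.2 ⟨W.erase 0, by simp, hspan⟩
    have hinner : ∀ U ∈ ((W.erase 0).powerset.image cl).erase W,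
        ‖∑ S ∈ (W.erase 0).powerset.filter (fun S => cl S = U), c S‖
          ≤ B * ((2 : ℝ) ^ V.card + 1) ^ n := by
      intro U hU
      rw [Finset.mem_erase] at hU
      obtain ⟨hUW, hU⟩ := hU
      obtain ⟨S0, hS0, rfl⟩ := Finset.mem_image.1 hU
      rw [Finset.mem_powerset] at hS0
      have hUW' : cl S0 ⊆ W := cl_subset hsub (hS0.trans (Finset.erase_subset _ _))
      have hlt : (cl S0).card < W.card :=
        Finset.card_lt_card (Finset.ssubset_iff_subset_ne.2 ⟨hUW', hUW⟩)
      have hih := ih (cl S0) (by omega) (hUW'.trans hWV) (isSub_cl h2 S0)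
      have hset : (W.erase 0).powerset.filter (fun S => cl S = cl S0)
          = ((cl S0).erase 0).powerset.filter (fun S => cl S = cl S0) := by
        ext S
        simp only [Finset.mem_filter, Finset.mem_powerset]
        constructor
        · rintro ⟨hS, hcl⟩
          refine ⟨?_, hcl⟩
          intro x hx
          refine Finset.mem_erase.2 ⟨?_, ?_⟩
          · exact (Finset.mem_erase.1 (hS hx)).1
          · rw [← hcl]; exact subset_cl S hx
        · rintro ⟨hS, hcl⟩
          exact ⟨hS.trans (Finset.erase_subset_erase _ hUW'), hcl⟩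
      rw [hset]
      exact hih
    rw [← Finset.add_sum_erase _ _ hmemW] at hfib
    have hcardim : (((W.erase 0).powerset.image cl).erase W).card ≤ 2 ^ V.card := by
      calc (((W.erase 0).powerset.image cl).erase W).card
          ≤ ((W.erase 0).powerset.image cl).card := Finset.card_erase_le
        _ ≤ ((W.erase 0).powerset).card := Finset.card_image_le
        _ = 2 ^ (W.erase 0).card := Finset.card_powerset _
        _ ≤ 2 ^ V.card := Nat.pow_le_pow_right (by norm_num)
            ((Finset.card_erase_le).trans (Finset.card_le_card hWV))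
    set A := ∑ S ∈ (W.erase 0).powerset.filter (fun S => cl S = W), c S with hA
    set Rst := ∑ U ∈ ((W.erase 0).powerset.image cl).erase W,
      ∑ S ∈ (W.erase 0).powerset.filter (fun S => cl S = U), c S with hRst
    have h3 : ‖Rst‖ ≤ (2 : ℝ) ^ V.card * (B * ((2 : ℝ) ^ V.card + 1) ^ n) := by
      calc ‖Rst‖ ≤ ∑ U ∈ ((W.erase 0).powerset.image cl).erase W,
            ‖∑ S ∈ (W.erase 0).powerset.filter (fun S => cl S = U), c S‖ := norm_sum_le _ _
        _ ≤ ∑ U ∈ ((W.erase 0).powerset.image cl).erase W,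
            B * ((2 : ℝ) ^ V.card + 1) ^ n := Finset.sum_le_sum hinner
        _ = ((((W.erase 0).powerset.image cl).erase W).card : ℝ) *
            (B * ((2 : ℝ) ^ V.card + 1) ^ n) := by rw [Finset.sum_const, nsmul_eq_mul]
        _ ≤ _ := by
            apply mul_le_mul_of_nonneg_right _ (by positivity)
            exact_mod_cast hcardim
    have h4 : ‖A‖ ≤ B + ‖Rst‖ := by
      have h5 : A = ∑ S ∈ (W.erase 0).powerset, c S - Rst := by
        rw [← hfib]; ring
      rw [h5]
      exact (norm_sub_le _ _).trans (by gcongr; exact h W hWV hsub)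
    have h6 : (1 : ℝ) ≤ ((2 : ℝ) ^ V.card + 1) ^ n := by
      apply one_le_pow₀
      have : (0 : ℝ) ≤ 2 ^ V.card := by positivity
      linarith
    calc ‖A‖ ≤ B + (2 : ℝ) ^ V.card * (B * ((2 : ℝ) ^ V.card + 1) ^ n) := h4.trans (by gcongr)
      _ ≤ B * ((2 : ℝ) ^ V.card + 1) ^ n
          + (2 : ℝ) ^ V.card * (B * ((2 : ℝ) ^ V.card + 1) ^ n) := by
          gcongr
          exact le_mul_of_one_le_right hB h6
      _ = B * ((2 : ℝ) ^ V.card + 1) ^ (n + 1) := by ring

/-- Real part of a product of numbers close to large positive reals. -/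
lemma re_prod_ge {D : Type*} (S : Finset D) (n : ℕ) (hS : S.card ≤ n) (x : D → ℝ) (g : ℂ)
    (hx : ∀ s ∈ S, 2 * (n : ℝ) * ‖g‖ + 1 ≤ x s) :
    (∏ s ∈ S, x s) / 4 ≤ (∏ s ∈ S, ((x s : ℂ) + g)).re := by
  classical
  have hpos : ∀ s ∈ S, 0 < x s := by
    intro s hs
    have := hx s hs
    have h1 : 0 ≤ 2 * (n : ℝ) * ‖g‖ := by positivity
    linarith
  have h1 : ∏ s ∈ S, ((x s : ℂ) + g) = ((∏ s ∈ S, x s : ℝ) : ℂ) * ∏ s ∈ S, (1 + g / (x s : ℂ)) := by
    push_cast
    rw [← Finset.prod_mul_distrib]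
    refine Finset.prod_congr rfl fun s hs => ?_
    have : (x s : ℂ) ≠ 0 := by exact_mod_cast (hpos s hs).ne'
    field_simp
  have h2 : ‖∏ s ∈ S, (1 + g / (x s : ℂ)) - 1‖ ≤ 3 / 4 := by
    refine (Finset.norm_prod_one_add_sub_one_le S _).trans ?_
    have h3 : ∑ s ∈ S, ‖g / (x s : ℂ)‖ ≤ 1 / 2 := by
      rcases Nat.eq_zero_or_pos n with hn | hn
      · have : S = ∅ := Finset.card_eq_zero.1 (by omega)
        rw [this]; simp
      have h4 : ∀ s ∈ S, ‖g / (x s : ℂ)‖ ≤ 1 / (2 * (n : ℝ)) := by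
        intro s hs
        rw [norm_div, Complex.norm_real, Real.norm_eq_abs, abs_of_pos (hpos s hs),
          div_le_div_iff₀ (hpos s hs) (by positivity)]
        have := hx s hs
        have hn' : (0 : ℝ) < n := by exact_mod_cast hn
        nlinarith [norm_nonneg g]
      calc ∑ s ∈ S, ‖g / (x s : ℂ)‖ ≤ ∑ s ∈ S, 1 / (2 * (n : ℝ)) := Finset.sum_le_sum h4
        _ = S.card * (1 / (2 * (n : ℝ))) := by rw [Finset.sum_const, nsmul_eq_mul]
        _ ≤ n * (1 / (2 * (n : ℝ))) := by
            apply mul_le_mul_of_nonneg_right _ (by positivity)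
            exact_mod_cast hS
        _ = 1 / 2 := by
            have hn' : (n : ℝ) ≠ 0 := by positivity
            field_simp
    have h5 : Real.exp (∑ s ∈ S, ‖g / (x s : ℂ)‖) ≤ Real.exp (1 / 2) := Real.exp_le_exp.2 h3
    have h6 : Real.exp (1 / 2) ≤ 7 / 4 := by
      have h7 : Real.exp (1 / 2) ^ 2 = Real.exp 1 := by
        rw [← Real.exp_nat_mul]; norm_num
      have h8 := Real.exp_one_lt_d9
      by_contra hcon
      push Not at hcon
      nlinarith
    linarith
  rw [h1, Complex.re_ofReal_mul, div_eq_mul_inv]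
  refine mul_le_mul_of_nonneg_left ?_ (Finset.prod_nonneg fun s hs => (hpos s hs).le)
  have h3 : -(∏ s ∈ S, (1 + g / (x s : ℂ)) - 1).re ≤ ‖∏ s ∈ S, (1 + g / (x s : ℂ)) - 1‖ :=
    (neg_le_abs _).trans (Complex.abs_re_le_norm _)
  rw [Complex.sub_re, Complex.one_re] at h3
  norm_num
  linarith

end W92892c
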