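import Mathlib
import Pool.Agent.W_92892c_h28.Step1

/-!
Generic solution: a small subspace containing infinitely many truncated types determines them
rationally.
-/

namespace W92892c

open Finset Matrix Filter Topology

lemma distinct_orders {n N : ℕ} (V : Submodule ℂ (Fin (n + 1) → ℂ))
    (h : N ≤ Module.finrank ℂ V) :
    ∃ (o : Fin N → Fin (n + 1)) (Q : Fin N → Fin (n + 1) → ℂ), StrictMono o ∧
      (∀ s, Q s ∈ V) ∧ (∀ s, Q s (o s) ≠ 0) ∧ ∀ s l, l < o s → Q s l = 0 := by
  classical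
  let rv : (Fin (n + 1) → ℂ) →ₗ[ℂ] (Fin (n + 1) → ℂ) :=
    { toFun := fun v l => v (Fin.rev l)
      map_add' := fun a b => by funext l; rfl
      map_smul' := fun c a => by funext l; rfl }
  have hinj : Function.Injective rv := by
    intro a b hab
    funext l
    have := congrFun hab (Fin.rev l)
    simpa [rv] using this
  have h1 : Module.finrank ℂ (V.map rv) = Module.finrank ℂ V :=
    (LinearEquiv.finrank_eq (Submodule.equivMapOfInjective rv hinj V)).symm
  obtain ⟨d, φ, hd, hφ, hφd, hφtop⟩ := distinct_tops (N := N) (V.map rv) (by rw [h1]; exact h)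
  refine ⟨fun s => Fin.rev (d (Fin.rev s)), fun s l => φ (Fin.rev s) (Fin.rev l), ?_, ?_, ?_, ?_⟩
  · intro a b hab
    have h2 : Fin.rev b < Fin.rev a := Fin.rev_lt_rev.2 hab
    exact Fin.rev_lt_rev.2 (hd h2)
  · intro s
    obtain ⟨v, hv, hvφ⟩ := hφ (Fin.rev s)
    have h2 : (fun l => φ (Fin.rev s) (Fin.rev l)) = v := by
      funext l
      rw [← hvφ]
      simp [rv]
    show (fun l => φ (Fin.rev s) (Fin.rev l)) ∈ V
    rw [h2]
    exact hv
  · intro s
    simp only [Fin.rev_rev]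
    exact hφd _
  · intro s l hl
    refine hφtop _ _ ?_
    have h2 := Fin.rev_lt_rev.2 hl
    rwa [Fin.rev_rev] at h2

/-- Vectors with strictly increasing orders are linearly independent. -/
lemma linInd_of_orders {n N : ℕ} (o : Fin N → Fin (n + 1)) (Q : Fin N → Fin (n + 1) → ℂ)
    (ho : StrictMono o) (hQ : ∀ s, Q s (o s) ≠ 0) (hQ0 : ∀ s l, l < o s → Q s l = 0) :
    LinearIndependent ℂ Q := by
  classical
  rw [Fintype.linearIndependent_iff]
  intro g hg
  by_contra hcon
  push Not at hcon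
  obtain ⟨i, hi⟩ := hcon
  have hne : (Finset.univ.filter fun s => g s ≠ 0).Nonempty := ⟨i, by simpa using hi⟩
  set s := (Finset.univ.filter fun s => g s ≠ 0).min' hne with hs
  have hgs : g s ≠ 0 := by
    have := Finset.min'_mem _ hne
    rw [← hs] at this
    simpa using this
  have h1 := congrFun hg (o s)
  simp only [Finset.sum_apply, Pi.smul_apply, smul_eq_mul, Pi.zero_apply] at h1
  rw [Finset.sum_eq_single s] at h1
  · exact (mul_ne_zero hgs (hQ s)) h1
  · intro b _ hb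
    rcases lt_or_gt_of_ne hb with hlt | hgt
    · have : g b = 0 := by
        by_contra hgb
        have := Finset.min'_le (Finset.univ.filter fun s => g s ≠ 0) b (by simpa using hgb)
        rw [← hs] at this
        exact absurd hlt (not_lt.2 this)
      rw [this, zero_mul]
    · rw [hQ0 b (o s) (ho hgt), mul_zero]
  · intro h; exact absurd (Finset.mem_univ s) h

/-- If moreover there are `finrank V` of them, they span `V`. -/
lemma span_of_orders {n N : ℕ} (V : Submodule ℂ (Fin (n + 1) → ℂ)) (hV : Module.finrank ℂ V = N)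
    (o : Fin N → Fin (n + 1)) (Q : Fin N → Fin (n + 1) → ℂ)
    (ho : StrictMono o) (hQV : ∀ s, Q s ∈ V) (hQ : ∀ s, Q s (o s) ≠ 0)
    (hQ0 : ∀ s l, l < o s → Q s l = 0) (v : Fin (n + 1) → ℂ) (hv : v ∈ V) :
    ∃ α : Fin N → ℂ, v = ∑ s, α s • Q s := by
  have hli := linInd_of_orders o Q ho hQ hQ0
  have hle : Submodule.span ℂ (Set.range Q) ≤ V := by
    rw [Submodule.span_le]
    rintro _ ⟨s, rfl⟩
    exact hQV s
  have hfin : Module.finrank ℂ (Submodule.span ℂ (Set.range Q)) = N := by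
    rw [finrank_span_eq_card hli, Fintype.card_fin]
  have heq := Submodule.eq_of_le_of_finrank_eq hle (by rw [hfin, hV])
  rw [← heq] at hv
  obtain ⟨α, hα⟩ := (Submodule.mem_span_range_iff_exists_fun ℂ).1 hv
  exact ⟨α, hα.symm⟩

lemma tendsto_coeff_neg {G' : PowerSeries ℂ} (hG : PowerSeries.coeff 0 G' = 1)
    {f : Filter ℂ} (hf : Tendsto (fun x : ℂ => ‖x‖) f atTop) (p : ℕ) :
    Tendsto (fun x => (x ^ p)⁻¹ * PowerSeries.coeff p (hser G' (-x))) f
      (𝓝 ((-1) ^ p * ((ent (p : ℤ) : ℝ) : ℂ))) := by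
  have hx : Tendsto (fun x : ℂ => ‖-x‖) f atTop := by simpa using hf
  have h1 := tendsto_hh hG hx p p 0 le_rfl
  rw [if_pos rfl] at h1
  have h2 := h1.const_mul ((-1 : ℂ) ^ p)
  have h3 : ((p : ℤ) - (2 * 0 : ℕ)) = (p : ℤ) := by simp
  rw [h3] at h2
  refine h2.congr fun x => ?_
  unfold hh
  rw [if_pos (by omega)]
  simp only [mul_zero, Nat.sub_zero, pow_zero, mul_one]
  rw [show (-x) ^ p = (-1) ^ p * x ^ p from neg_pow x p, mul_inv]
  have h4 : ((-1 : ℂ) ^ p)⁻¹ = (-1) ^ p := by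
    rw [← inv_pow]; norm_num
  rw [h4]
  have h5 : ((-1 : ℂ) ^ p) * (-1) ^ p = 1 := by rw [← mul_pow]; norm_num
  calc (-1 : ℂ) ^ p * ((-1) ^ p * (x ^ p)⁻¹ * PowerSeries.coeff p (hser G' (-x)))
      = ((-1 : ℂ) ^ p * (-1) ^ p) * ((x ^ p)⁻¹ * PowerSeries.coeff p (hser G' (-x))) := by ring
    _ = _ := by rw [h5, one_mul]

/-- `[z^m] (e^{-xz} G'(z) Q(z))` for a truncated series `Q`. -/
noncomputable def thet (G' : PowerSeries ℂ) {n : ℕ} (m : ℕ) (Q : Fin (n + 1) → ℂ) (x : ℂ) : ℂ :=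
  ∑ l : Fin (n + 1), if (l : ℕ) ≤ m then Q l * PowerSeries.coeff (m - l) (hser G' (-x)) else 0

lemma tendsto_thet {G' : PowerSeries ℂ} (hG : PowerSeries.coeff 0 G' = 1)
    {f : Filter ℂ} (hf : Tendsto (fun x : ℂ => ‖x‖) f atTop) {n : ℕ} (m : ℕ)
    (Q : Fin (n + 1) → ℂ) (o : Fin (n + 1)) (hQ : ∀ l, l < o → Q l = 0) :
    Tendsto (fun x => (x ^ m)⁻¹ * thet G' m Q x * x ^ (o : ℕ)) f
      (𝓝 (Q o * ((-1) ^ m * (-1) ^ (o : ℕ) *
        ((ent ((m : ℤ) - ((o : ℕ) : ℤ)) : ℝ) : ℂ)))) := by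
  have hne : ∀ᶠ x : ℂ in f, x ≠ 0 := by
    filter_upwards [hf.eventually_gt_atTop 0] with i hi
    intro h; rw [h, norm_zero] at hi; exact lt_irrefl _ hi
  have hterm : ∀ l ∈ (Finset.univ : Finset (Fin (n + 1))), Tendsto
      (fun x : ℂ => (x ^ m)⁻¹ * (if (l : ℕ) ≤ m then
        Q l * PowerSeries.coeff (m - l) (hser G' (-x)) else 0) * x ^ (o : ℕ)) f
      (𝓝 (if l = o then Q o * ((-1) ^ m * (-1) ^ (o : ℕ) *
        ((ent ((m : ℤ) - ((o : ℕ) : ℤ)) : ℝ) : ℂ)) else 0)) := by
    intro l _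
    by_cases hlo : l < o
    · rw [hQ l hlo, if_neg (ne_of_lt hlo)]
      simp only [zero_mul, ite_self, mul_zero]
      exact tendsto_const_nhds
    · have hol : (o : ℕ) ≤ (l : ℕ) := not_lt.1 hlo
      by_cases hlm : (l : ℕ) ≤ m
      · simp only [if_pos hlm]
        have h1 := tendsto_coeff_neg hG hf (m - l)
        have h2 := tendsto_pow_ratio (x := fun x : ℂ => x) hf (l : ℕ) (o : ℕ) hol
        have h3 := (h1.mul h2).const_mul (Q l)
        have hlim : Q l * ((-1) ^ (m - (l : ℕ)) * ((ent ((m - (l : ℕ) : ℕ) : ℤ) : ℝ) : ℂ) *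
            (if (o : ℕ) = (l : ℕ) then 1 else 0)) = (if l = o then Q o * ((-1) ^ m *
            (-1) ^ (o : ℕ) * ((ent ((m : ℤ) - ((o : ℕ) : ℤ)) : ℝ) : ℂ)) else 0) := by
          by_cases hh : l = o
          · rw [if_pos hh, if_pos (by rw [hh]), hh]
            rw [hh] at hlm
            have e1 : (-1 : ℂ) ^ m = (-1) ^ (m - (o : ℕ)) * (-1) ^ (o : ℕ) := by
              rw [← pow_add]; congr 1; omega
            have e2 : ((-1 : ℂ) ^ (o : ℕ)) * (-1) ^ (o : ℕ) = 1 := by
              rw [← mul_pow]; norm_num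
            have e3 : ((m : ℤ) - ((o : ℕ) : ℤ)) = ((m - (o : ℕ) : ℕ) : ℤ) := by omega
            rw [e1, e3, mul_one, mul_assoc ((-1 : ℂ) ^ (m - (o : ℕ))), e2, mul_one]
          · rw [if_neg hh, if_neg (fun h => hh (Fin.ext h.symm))]
            ring
        rw [hlim] at h3
        refine h3.congr' ?_
        filter_upwards [hne] with x hx
        have e1 : x ^ m = x ^ (m - (l : ℕ)) * x ^ (l : ℕ) := by
          rw [← pow_add]; congr 1; omega
        rw [e1, mul_inv]
        ring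
      · simp only [if_neg hlm]
        by_cases hh : l = o
        · rw [if_pos hh]
          rw [hh] at hlm
          rw [ent_of_neg (by omega)]
          simp only [mul_zero, zero_mul, Complex.ofReal_zero]
          exact tendsto_const_nhds
        · rw [if_neg hh]
          simp only [mul_zero, zero_mul]
          exact tendsto_const_nhds
  have hsum := tendsto_finsetSum Finset.univ hterm
  rw [Finset.sum_ite_eq' Finset.univ o, if_pos (Finset.mem_univ _)] at hsum
  refine hsum.congr fun x => ?_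
  unfold thet
  rw [Finset.mul_sum, Finset.sum_mul]

end W92892c
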