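import Mathlib
import Pool.Agent.W_92892c_h28.Generic

/-!
Generic solution, second part.
-/

namespace W92892c

open Finset Matrix Filter Topology

/-- The annihilator for the standard dot product. -/
def ann {n : ℕ} (V : Submodule ℂ (Fin n → ℂ)) : Submodule ℂ (Fin n → ℂ) where
  carrier := {φ | ∀ v ∈ V, ∑ l, φ l * v l = 0}
  add_mem' := by
    intro a b ha hb v hv
    simp only [Pi.add_apply, add_mul, Finset.sum_add_distrib]
    rw [ha v hv, hb v hv, add_zero]
  zero_mem' := by intro v _; simp
  smul_mem' := by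
    intro c a ha v hv
    simp only [Pi.smul_apply, smul_eq_mul, mul_assoc]
    rw [← Finset.mul_sum, ha v hv, mul_zero]

lemma mem_ann {n : ℕ} {V : Submodule ℂ (Fin n → ℂ)} {φ : Fin n → ℂ} :
    φ ∈ ann V ↔ ∀ v ∈ V, ∑ l, φ l * v l = 0 := Iff.rfl

lemma le_finrank_ann {n : ℕ} (V : Submodule ℂ (Fin n → ℂ)) :
    n ≤ Module.finrank ℂ V + Module.finrank ℂ (ann V) := by
  let T : (Fin n → ℂ) →ₗ[ℂ] Module.Dual ℂ V :=
    { toFun := fun v =>
        { toFun := fun b => ∑ l, v l * (b : Fin n → ℂ) l
          map_add' := by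
            intro a b
            simp only [Submodule.coe_add, Pi.add_apply, mul_add, Finset.sum_add_distrib]
          map_smul' := by
            intro c a
            simp only [Submodule.coe_smul, Pi.smul_apply, smul_eq_mul, RingHom.id_apply,
              Finset.mul_sum]
            exact Finset.sum_congr rfl fun l _ => by ring }
      map_add' := by
        intro a b
        ext c
        simp only [Pi.add_apply, add_mul, Finset.sum_add_distrib, LinearMap.coe_mk,
          AddHom.coe_mk, LinearMap.add_apply]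
      map_smul' := by
        intro c a
        ext b
        simp only [Pi.smul_apply, smul_eq_mul, RingHom.id_apply, LinearMap.coe_mk,
          AddHom.coe_mk, LinearMap.smul_apply, Finset.mul_sum]
        exact Finset.sum_congr rfl fun l _ => by ring }
  have hker : LinearMap.ker T ≤ ann V := by
    intro φ hφ v hv
    have h1 : T φ ⟨v, hv⟩ = 0 := by rw [LinearMap.mem_ker.1 hφ]; rfl
    exact h1
  have h1 := LinearMap.finrank_range_add_finrank_ker T
  have h2 : Module.finrank ℂ (LinearMap.range T) ≤ Module.finrank ℂ V := by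
    refine (Submodule.finrank_le _).trans ?_
    rw [Subspace.dual_finrank_eq]
  have h3 := Submodule.finrank_mono hker
  rw [Module.finrank_fin_fun] at h1
  omega

lemma thet_sum {G' : PowerSeries ℂ} {n N : ℕ} (m : ℕ) (α : Fin N → ℂ)
    (Q : Fin N → Fin (n + 1) → ℂ) (x : ℂ) :
    thet G' m (∑ s, α s • Q s) x = ∑ s, α s * thet G' m (Q s) x := by
  unfold thet
  simp only [Finset.mul_sum]
  rw [Finset.sum_comm]
  refine Finset.sum_congr rfl fun l _ => ?_
  by_cases hl : (l : ℕ) ≤ m
  · simp only [if_pos hl, Finset.sum_apply, Pi.smul_apply, smul_eq_mul, Finset.sum_mul]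
    exact Finset.sum_congr rfl fun s _ => by ring
  · simp [if_neg hl]

lemma hser_inv_mul {G : PowerSeries ℂ} (hG : PowerSeries.coeff 0 G = 1) (y : ℂ) :
    hser G⁻¹ (-y) * hser G y = 1 := by
  have hGc : PowerSeries.constantCoeff G ≠ 0 := by
    rw [← PowerSeries.coeff_zero_eq_constantCoeff_apply, hG]; exact one_ne_zero
  unfold hser
  have hexp : PowerSeries.rescale (-y) (PowerSeries.exp ℂ) *
      PowerSeries.rescale y (PowerSeries.exp ℂ) = 1 := by
    rw [PowerSeries.exp_mul_exp_eq_exp_add, neg_add_cancel, PowerSeries.rescale_zero_apply,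
      PowerSeries.constantCoeff_exp, map_one]
  have hinv : G⁻¹ * G = 1 := PowerSeries.inv_mul_cancel G hGc
  calc PowerSeries.rescale (-y) (PowerSeries.exp ℂ) * G⁻¹ *
        (PowerSeries.rescale y (PowerSeries.exp ℂ) * G)
      = (PowerSeries.rescale (-y) (PowerSeries.exp ℂ) *
        PowerSeries.rescale y (PowerSeries.exp ℂ)) * (G⁻¹ * G) := by ring
    _ = 1 := by rw [hexp, hinv, one_mul]

lemma thet_type {G : PowerSeries ℂ} (hG : PowerSeries.coeff 0 G = 1) {y : ℂ}
    {F : PowerSeries ℂ} (hF : IsType G y F) {n m : ℕ} (hm : Odd m) (hmn : m ≤ n) :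
    thet G⁻¹ m (fun l : Fin (n + 1) => PowerSeries.coeff (l : ℕ) F) y = 0 := by
  obtain ⟨E, hE, _, hFE⟩ := hF
  have h1 : hser G⁻¹ (-y) * F = E := by
    have h2 := hser_inv_mul hG y
    unfold hser at h2 ⊢
    rw [hFE, ← mul_assoc, h2, one_mul]
  have h2 := hE m hm
  rw [← h1, PowerSeries.coeff_mul, Finset.Nat.sum_antidiagonal_eq_sum_range_succ
    (fun a b => PowerSeries.coeff a (hser G⁻¹ (-y)) * PowerSeries.coeff b F) m,
    ← Finset.sum_range_reflect] at h2
  unfold thet
  rw [Fin.sum_univ_eq_sum_range (fun l => if l ≤ m then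
    PowerSeries.coeff l F * PowerSeries.coeff (m - l) (hser G⁻¹ (-y)) else 0) (n + 1)]
  rw [← Finset.sum_subset (Finset.range_subset_range.2 (by omega : m + 1 ≤ n + 1))]
  · rw [← h2]
    refine Finset.sum_congr rfl fun l hl => ?_
    rw [Finset.mem_range] at hl
    rw [if_pos (by omega), show m + 1 - 1 - l = m - l by omega, show m - (m - l) = l by omega,
      mul_comm]
  · intro l _ hl
    rw [Finset.mem_range] at hl
    rw [if_neg (by omega)]

/-- The polynomial `coeff p (hser G' (-X))`. -/
noncomputable def gp (G' : PowerSeries ℂ) (p : ℕ) : Polynomial ℂ :=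
  ∑ ab ∈ antidiagonal p, (-Polynomial.X) ^ ab.1 *
    Polynomial.C ((1 / (ab.1.factorial : ℂ)) * PowerSeries.coeff ab.2 G')

lemma eval_gp (G' : PowerSeries ℂ) (p : ℕ) (x : ℂ) :
    (gp G' p).eval x = PowerSeries.coeff p (hser G' (-x)) := by
  rw [coeff_hser]
  unfold gp
  rw [Polynomial.eval_finsetSum]
  refine Finset.sum_congr rfl fun ab _ => ?_
  simp only [Polynomial.eval_mul, Polynomial.eval_pow, Polynomial.eval_neg, Polynomial.eval_X,
    Polynomial.eval_C]
  ring

/-- The polynomial `thet G' m Q`. -/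
noncomputable def thetP (G' : PowerSeries ℂ) {n : ℕ} (m : ℕ) (Q : Fin (n + 1) → ℂ) :
    Polynomial ℂ :=
  ∑ l : Fin (n + 1), if (l : ℕ) ≤ m then Polynomial.C (Q l) * gp G' (m - l) else 0

lemma eval_thetP (G' : PowerSeries ℂ) {n : ℕ} (m : ℕ) (Q : Fin (n + 1) → ℂ) (x : ℂ) :
    (thetP G' m Q).eval x = thet G' m Q x := by
  unfold thetP thet
  rw [Polynomial.eval_finsetSum]
  refine Finset.sum_congr rfl fun l _ => ?_
  split_ifs
  · rw [Polynomial.eval_mul, Polynomial.eval_C, eval_gp]
  · simp

end W92892c
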