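import Mathlib
import Pool.Agent.W_92892c_h28.Generic2

/-!
Generic solution, main theorem.
-/

namespace W92892c

open Finset Matrix Filter Topology

/-- Orders of a small subspace containing an infinite family of types. -/
lemma orders_le {G : PowerSeries ℂ} (hG : PowerSeries.coeff 0 G = 1) {n N : ℕ}
    {ι : Type*} {f : Filter ι} [f.NeBot] {x : ι → ℂ}
    (hx : Tendsto (fun i => ‖x i‖) f atTop) {F : ι → PowerSeries ℂ}
    (hF : ∀ i, IsType G (x i) (F i)) (o : Fin N → Fin (n + 1)) (Q : Fin N → Fin (n + 1) → ℂ)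
    (ho : StrictMono o) (hQ0 : ∀ s l, l < o s → Q s l = 0)
    (hspan : ∀ i, ∃ α : Fin N → ℂ, (fun l : Fin (n + 1) => PowerSeries.coeff (l : ℕ) (F i))
      = ∑ s, α s • Q s)
    (t : Fin N) (ht : 0 < (t : ℕ)) : (o t : ℕ) ≤ 2 * (t : ℕ) - 1 := by
  classical
  by_contra hcon
  push Not at hcon
  have h2t : 2 * (t : ℕ) ≤ (o t : ℕ) := by omega
  have hon : (o t : ℕ) < n + 1 := (o t).2
  have hle : 2 * (t : ℕ) - 1 + 1 ≤ n + 1 := by omega
  let V' : Submodule ℂ (Fin (2 * (t : ℕ) - 1 + 1) → ℂ) :=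
    Submodule.span ℂ (Set.range fun s : Fin (t : ℕ) => fun l : Fin (2 * (t : ℕ) - 1 + 1) =>
      Q (Fin.castLE t.2.le s) (Fin.castLE hle l))
  have hV' : Module.finrank ℂ V' ≤ (t : ℕ) := by
    have h1 := finrank_range_le_card (R := ℂ) (fun s : Fin (t : ℕ) =>
      fun l : Fin (2 * (t : ℕ) - 1 + 1) => Q (Fin.castLE t.2.le s) (Fin.castLE hle l))
    rw [Fintype.card_fin] at h1
    exact h1
  have hkill : ∀ φ ∈ ann V', ∀ i, ∑ l : Fin (2 * (t : ℕ) - 1 + 1),
      φ l * PowerSeries.coeff (l : ℕ) (F i) = 0 := by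
    intro φ hφ i
    obtain ⟨α, hα⟩ := hspan i
    have h1 : ∀ l : Fin (2 * (t : ℕ) - 1 + 1), PowerSeries.coeff (l : ℕ) (F i)
        = ∑ s, α s * Q s (Fin.castLE hle l) := by
      intro l
      have h2 := congrFun hα (Fin.castLE hle l)
      simp only [Fin.val_castLE, Finset.sum_apply, Pi.smul_apply, smul_eq_mul] at h2
      exact h2
    simp only [h1, Finset.mul_sum]
    rw [Finset.sum_comm]
    refine Finset.sum_eq_zero fun s _ => ?_
    by_cases hst : (s : ℕ) < (t : ℕ)
    · have h3 := hφ _ (Submodule.subset_span ⟨⟨(s : ℕ), hst⟩, rfl⟩)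
      have h4 : (Fin.castLE t.2.le (⟨(s : ℕ), hst⟩ : Fin (t : ℕ))) = s := by
        ext; simp
      simp only [h4] at h3
      calc ∑ l, φ l * (α s * Q s (Fin.castLE hle l))
          = α s * ∑ l, φ l * Q s (Fin.castLE hle l) := by
            rw [Finset.mul_sum]
            exact Finset.sum_congr rfl fun l _ => by ring
        _ = 0 := by rw [h3, mul_zero]
    · refine Finset.sum_eq_zero fun l _ => ?_
      have h3 : o t ≤ o s := ho.monotone (not_lt.1 hst)
      have h4 : Q s (Fin.castLE hle l) = 0 := by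
        apply hQ0
        rw [Fin.lt_def]
        have h5 : (o t : ℕ) ≤ (o s : ℕ) := h3
        have h6 := l.2
        simp only [Fin.val_castLE]
        omega
      rw [h4, mul_zero, mul_zero]
  have h1 := finrank_le_half hG hx hF (2 * (t : ℕ) - 1) (ann V') hkill
  have h2 := le_finrank_ann V'
  omega

theorem generic {G : PowerSeries ℂ} (hG : PowerSeries.coeff 0 G = 1) (h : ℕ)
    (V : Submodule ℂ (Fin (2 * h + 1) → ℂ)) (hV : Module.finrank ℂ V ≤ h + 1)
    {ι : Type*} {f : Filter ι} [f.NeBot] {x : ι → ℂ}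
    (hx : Tendsto (fun i => ‖x i‖) f atTop) {F : ι → PowerSeries ℂ}
    (hF : ∀ i, IsType G (x i) (F i))
    (hFV : ∀ i, (fun l : Fin (2 * h + 1) => PowerSeries.coeff (l : ℕ) (F i)) ∈ V) :
    ∃ (P : Fin (2 * h + 1) → Polynomial ℂ) (B : ℝ), ∀ (y : ℂ) (F' : PowerSeries ℂ), B ≤ ‖y‖ →
      IsType G y F' → (fun l : Fin (2 * h + 1) => PowerSeries.coeff (l : ℕ) F') ∈ V →
      (P 0).eval y ≠ 0 ∧ ∀ l : Fin (2 * h + 1),
        (P 0).eval y * PowerSeries.coeff (l : ℕ) F' = (P l).eval y := by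
  classical
  -- the dimension is exactly `h + 1`
  have hkillV : ∀ φ ∈ ann V, ∀ i, ∑ l : Fin (2 * h + 1),
      φ l * PowerSeries.coeff (l : ℕ) (F i) = 0 := fun φ hφ i => hφ _ (hFV i)
  have hann := finrank_le_half hG hx hF (2 * h) (ann V) hkillV
  have hann2 := le_finrank_ann V
  have hVeq : Module.finrank ℂ V = h + 1 := by omega
  obtain ⟨o, Q, ho, hQV, hQo, hQ0⟩ := distinct_orders (N := h + 1) V (by omega)
  have hspanV : ∀ v ∈ V, ∃ α : Fin (h + 1) → ℂ, v = ∑ s, α s • Q s := fun v hv =>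
    span_of_orders V hVeq o Q ho hQV hQo hQ0 v hv
  -- the first order is `0`
  have ho0 : o 0 = 0 := by
    obtain ⟨i⟩ : Nonempty ι := f.nonempty_of_neBot
    obtain ⟨α, hα⟩ := hspanV _ (hFV i)
    have h1 := congrFun hα 0
    simp only [Fin.val_zero, Finset.sum_apply, Pi.smul_apply, smul_eq_mul] at h1
    rw [(hF i).coeff_zero hG] at h1
    by_contra hne
    have h2 : ∀ s : Fin (h + 1), Q s 0 = 0 := by
      intro s
      apply hQ0
      have h3 : o 0 ≤ o s := ho.monotone (Fin.zero_le s)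
      exact lt_of_lt_of_le (Fin.pos_of_ne_zero hne) h3
    simp only [h2, mul_zero, Finset.sum_const_zero] at h1
    exact one_ne_zero h1
  have hQs0 : ∀ t : Fin h, Q t.succ 0 = 0 := by
    intro t
    apply hQ0
    have h3 : o 0 < o t.succ := ho (Fin.succ_pos t)
    rw [ho0] at h3
    exact h3
  have hord : ∀ t : Fin h, (o t.succ : ℕ) ≤ 2 * (t : ℕ) + 1 := by
    intro t
    have h1 := orders_le hG hx hF o Q ho hQ0 (fun i => hspanV _ (hFV i)) t.succ
      (by rw [Fin.val_succ]; omega)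
    rw [Fin.val_succ] at h1
    omega
  have hG' : PowerSeries.coeff 0 G⁻¹ = 1 := by
    rw [PowerSeries.coeff_zero_eq_constantCoeff_apply, PowerSeries.constantCoeff_inv,
      ← PowerSeries.coeff_zero_eq_constantCoeff_apply, hG, inv_one]
  -- the linear system
  let Np : Matrix (Fin h) (Fin h) (Polynomial ℂ) := Matrix.of fun s t =>
    thetP G⁻¹ (2 * (s : ℕ) + 1) (Q t.succ)
  let bp : Fin h → Polynomial ℂ := fun s => thetP G⁻¹ (2 * (s : ℕ) + 1) (Q 0)
  let P : Fin (2 * h + 1) → Polynomial ℂ := fun l =>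
    Np.det * Polynomial.C (Q 0 l) -
      ∑ t, (Np.adjugate.mulVec bp) t * Polynomial.C (Q t.succ l)
  let N : ℂ → Matrix (Fin h) (Fin h) ℂ := fun y => Matrix.of fun s t =>
    thet G⁻¹ (2 * (s : ℕ) + 1) (Q t.succ) y
  let b : ℂ → Fin h → ℂ := fun y s => thet G⁻¹ (2 * (s : ℕ) + 1) (Q 0) y
  have hNp : ∀ y, (Polynomial.evalRingHom y).mapMatrix Np = N y := by
    intro y
    ext s t
    simp only [Np, N, RingHom.mapMatrix_apply, Matrix.map_apply, Matrix.of_apply,
      Polynomial.coe_evalRingHom]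
    exact eval_thetP _ _ _ _
  have hdet : ∀ y, Np.det.eval y = (N y).det := by
    intro y
    rw [← hNp y, ← RingHom.map_det]; rfl
  have hadj : ∀ y t, ((Np.adjugate.mulVec bp) t).eval y = ((N y).adjugate.mulVec (b y)) t := by
    intro y t
    simp only [Matrix.mulVec, dotProduct, Polynomial.eval_finsetSum, Polynomial.eval_mul]
    refine Finset.sum_congr rfl fun s _ => ?_
    congr 1
    · rw [← hNp y, ← RingHom.map_adjugate]; rfl
    · exact eval_thetP _ _ _ _
  have hPl : ∀ y l, (P l).eval y = (N y).det * Q 0 l -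
      ∑ t, ((N y).adjugate.mulVec (b y)) t * Q t.succ l := by
    intro y l
    simp only [P, Polynomial.eval_sub, Polynomial.eval_mul, Polynomial.eval_C,
      Polynomial.eval_finsetSum, hdet, hadj]
  have hP0 : ∀ y, (P 0).eval y = (N y).det * Q 0 0 := by
    intro y
    rw [hPl]
    simp only [hQs0, mul_zero, Finset.sum_const_zero, sub_zero]
  -- the determinant does not vanish near infinity
  have hlarge : ∃ B : ℝ, ∀ y : ℂ, B ≤ ‖y‖ → (N y).det ≠ 0 := by
    set g : Filter ℂ := Filter.comap (fun y : ℂ => ‖y‖) atTop with hg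
    have hgt : Tendsto (fun y : ℂ => ‖y‖) g atTop := tendsto_comap
    let S : ℂ → Matrix (Fin h) (Fin h) ℂ := fun y => Matrix.of fun s t =>
      (y ^ (2 * (s : ℕ) + 1))⁻¹ * N y s t * y ^ (o t.succ : ℕ)
    let C : Matrix (Fin h) (Fin h) ℂ := Matrix.of fun s t =>
      Q t.succ (o t.succ) * ((-1) ^ (2 * (s : ℕ) + 1) * (-1) ^ (o t.succ : ℕ) *
        ((ent (((2 * (s : ℕ) + 1 : ℕ) : ℤ) - ((o t.succ : ℕ) : ℤ)) : ℝ) : ℂ))
    have htend' : ∀ s t, Tendsto (fun y => S y s t) g (𝓝 (C s t)) := by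
      intro s t
      exact tendsto_thet hG' hgt (2 * (s : ℕ) + 1) (Q t.succ) (o t.succ) (hQ0 t.succ)
    have htend : Tendsto S g (𝓝 C) :=
      tendsto_pi_nhds.2 fun s => tendsto_pi_nhds.2 fun t => htend' s t
    have hdetS : Tendsto (fun y => (S y).det) g (𝓝 C.det) :=
      ((Continuous.matrix_det continuous_id).tendsto C).comp htend
    have hCdet : C.det = (∏ s : Fin h, (-1 : ℂ) ^ (2 * (s : ℕ) + 1)) *
        ((∏ t : Fin h, Q t.succ (o t.succ) * (-1) ^ (o t.succ : ℕ)) *
        (((tpMat (fun s : Fin h => ((2 * (s : ℕ) + 1 : ℕ) : ℤ))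
          (fun t : Fin h => ((o t.succ : ℕ) : ℤ))).det : ℝ) : ℂ)) := by
      have h1 : C = Matrix.of fun (s t : Fin h) => (-1 : ℂ) ^ (2 * (s : ℕ) + 1) *
          (Matrix.of fun (s t : Fin h) => (Q t.succ (o t.succ) * (-1) ^ (o t.succ : ℕ)) *
            ((Complex.ofRealHom.mapMatrix (tpMat (fun s : Fin h => ((2 * (s : ℕ) + 1 : ℕ) : ℤ))
          (fun t : Fin h => ((o t.succ : ℕ) : ℤ))).transpose) s t)) s t := by
        ext s t
        simp only [C, Matrix.of_apply, RingHom.mapMatrix_apply, Matrix.map_apply,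
          Matrix.transpose_apply, tpMat, Complex.ofRealHom_eq_coe]
        ring
      rw [h1, Matrix.det_mul_column, Matrix.det_mul_row, ← RingHom.map_det,
        Matrix.det_transpose]
      rfl
    have hpos : 0 < (tpMat (fun s : Fin h => ((2 * (s : ℕ) + 1 : ℕ) : ℤ))
          (fun t : Fin h => ((o t.succ : ℕ) : ℤ))).det := by
      apply tp_det_pos
      · intro a b hab
        have h3 : (a : ℕ) < (b : ℕ) := hab
        show ((2 * (a : ℕ) + 1 : ℕ) : ℤ) < ((2 * (b : ℕ) + 1 : ℕ) : ℤ)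
        exact_mod_cast (by omega : 2 * (a : ℕ) + 1 < 2 * (b : ℕ) + 1)
      · intro a b hab
        have h3 : o a.succ < o b.succ := ho (Fin.succ_lt_succ_iff.2 hab)
        have h4 : (o a.succ : ℕ) < (o b.succ : ℕ) := h3
        show ((o a.succ : ℕ) : ℤ) < ((o b.succ : ℕ) : ℤ)
        exact_mod_cast h4
      · intro t
        show ((o t.succ : ℕ) : ℤ) ≤ ((2 * (t : ℕ) + 1 : ℕ) : ℤ)
        exact_mod_cast hord t
    have hCne : C.det ≠ 0 := by
      rw [hCdet]
      refine mul_ne_zero (Finset.prod_ne_zero_iff.2 fun s _ => pow_ne_zero _ (by norm_num))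
        (mul_ne_zero (Finset.prod_ne_zero_iff.2 fun t _ => mul_ne_zero (hQo _)
          (pow_ne_zero _ (by norm_num))) ?_)
      exact_mod_cast hpos.ne'
    have hev : ∀ᶠ y in g, (S y).det ≠ 0 := hdetS.eventually_ne hCne
    have hev2 : ∀ᶠ y in g, (N y).det ≠ 0 := by
      filter_upwards [hev] with y hy hN
      apply hy
      have h1 : S y = Matrix.of fun (s t : Fin h) => y ^ (o t.succ : ℕ) *
          (Matrix.of fun (s t : Fin h) => (y ^ (2 * (s : ℕ) + 1))⁻¹ * N y s t) s t := by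
        ext s t
        simp only [S, Matrix.of_apply]
        ring
      rw [h1, Matrix.det_mul_row, Matrix.det_mul_column, hN, mul_zero, mul_zero]
    rw [hg, Filter.eventually_comap] at hev2
    obtain ⟨B, hB⟩ := Filter.eventually_atTop.1 hev2
    exact ⟨B, fun y hy => hB ‖y‖ hy y rfl⟩
  obtain ⟨B, hB⟩ := hlarge
  refine ⟨P, B, fun y F' hy hF' hF'V => ?_⟩
  have hdetne := hB y hy
  have hQ00 : Q 0 0 ≠ 0 := by
    have h1 := hQo 0
    rwa [ho0] at h1
  refine ⟨by rw [hP0]; exact mul_ne_zero hdetne hQ00, fun l => ?_⟩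
  obtain ⟨α, hα⟩ := hspanV _ hF'V
  -- constant coefficient
  have hα0 : α 0 * Q 0 0 = 1 := by
    have h1 := congrFun hα 0
    simp only [Fin.val_zero, Finset.sum_apply, Pi.smul_apply, smul_eq_mul] at h1
    rw [hF'.coeff_zero hG, Fin.sum_univ_succ] at h1
    simp only [hQs0, mul_zero, Finset.sum_const_zero, add_zero] at h1
    exact h1.symm
  -- the equations
  have hsys : (N y).mulVec (fun t => α t.succ) = -(α 0 • b y) := by
    funext s
    have h1 := thet_type hG hF' (n := 2 * h) (m := 2 * (s : ℕ) + 1) ⟨(s : ℕ), rfl⟩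
      (by have := s.2; omega)
    rw [hα, thet_sum, Fin.sum_univ_succ] at h1
    simp only [Matrix.mulVec, dotProduct, N, Matrix.of_apply, Pi.neg_apply, Pi.smul_apply,
      smul_eq_mul, b]
    have h2 : ∑ t : Fin h, thet G⁻¹ (2 * (s : ℕ) + 1) (Q t.succ) y * α t.succ
        = ∑ t : Fin h, α t.succ * thet G⁻¹ (2 * (s : ℕ) + 1) (Q t.succ) y :=
      Finset.sum_congr rfl fun t _ => mul_comm _ _
    rw [h2]
    linear_combination h1
  have hcram : ∀ t, (N y).det * α t.succ = -(α 0 * ((N y).adjugate.mulVec (b y)) t) := by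
    intro t
    have h1 : (N y).adjugate.mulVec ((N y).mulVec (fun t => α t.succ))
        = (N y).det • (fun t : Fin h => α t.succ) := by
      rw [Matrix.mulVec_mulVec, Matrix.adjugate_mul, Matrix.smul_mulVec, Matrix.one_mulVec]
    rw [hsys, Matrix.mulVec_neg, Matrix.mulVec_smul] at h1
    have h2 := congrFun h1 t
    simp only [Pi.neg_apply, Pi.smul_apply, smul_eq_mul] at h2
    exact h2.symm
  have hFl : PowerSeries.coeff (l : ℕ) F' = α 0 * Q 0 l + ∑ t : Fin h, α t.succ * Q t.succ l := by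
    have h1 := congrFun hα l
    simp only [Finset.sum_apply, Pi.smul_apply, smul_eq_mul] at h1
    rw [h1, Fin.sum_univ_succ]
  rw [hP0, hPl, hFl]
  have h3 : ∑ t : Fin h, ((N y).adjugate.mulVec (b y)) t * Q t.succ l
      = -(Q 0 0 * ∑ t : Fin h, ((N y).det * α t.succ) * Q t.succ l) := by
    simp only [hcram]
    rw [Finset.mul_sum, ← Finset.sum_neg_distrib]
    refine Finset.sum_congr rfl fun t _ => ?_
    have : Q 0 0 * (-(α 0 * ((N y).adjugate.mulVec (b y)) t) * Q t.succ l)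
        = -((α 0 * Q 0 0) * (((N y).adjugate.mulVec (b y)) t * Q t.succ l)) := by ring
    rw [this, hα0]
    ring
  rw [h3]
  have h4 : ∑ t : Fin h, ((N y).det * α t.succ) * Q t.succ l
      = (N y).det * ∑ t : Fin h, α t.succ * Q t.succ l := by
    rw [Finset.mul_sum]
    exact Finset.sum_congr rfl fun t _ => by ring
  rw [h4]
  linear_combination ((N y).det * Q 0 l) * hα0

end W92892c
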