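import Mathlib
import Pool.Agent.W_92892c_h28.CoreB

/-!
The span of the truncated series with a given defect `κ = n + 1` has dimension at most `κ / 2`;
equivalently its annihilator has dimension at least `n / 2 + 1`.
-/

namespace W92892c

open Finset Filter Topology

theorem core_span {D : Type*} {BB : Set D} {R : PowerSeries ℂ}
    (hR : PowerSeries.coeff 0 R = 1)
    {lam : D → ℝ} {F : D → PowerSeries ℂ} {k : D → ℕ} (h : DataB BB R lam F k) (n : ℕ)
    (Λ : Submodule ℂ (Fin (n + 1) → ℂ))
    (hL : ∀ φ : Fin (n + 1) → ℂ, (∀ d, k d = n + 1 →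
      ∑ l : Fin (n + 1), φ l * PowerSeries.coeff (l : ℕ) (F d) = 0) → φ ∈ Λ) :
    n / 2 + 1 ≤ Module.finrank ℂ Λ := by
  classical
  have : Infinite BB := h.inf.to_subtype
  have hx' : Tendsto (fun i : BB => ‖((-lam i : ℝ) : ℂ)‖) cofinite atTop := by
    have h1 : Tendsto (fun i : BB => lam i) cofinite atTop :=
      h.grow.comp Subtype.val_injective.tendsto_cofinite
    have h2 := tendsto_abs_atTop_atTop.comp h1
    refine h2.congr fun i => ?_
    simp only [Function.comp, Complex.norm_real, Real.norm_eq_abs, abs_neg]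
  have hR' : PowerSeries.coeff 0 R⁻¹ = 1 := by
    rw [PowerSeries.coeff_zero_eq_constantCoeff_apply, PowerSeries.constantCoeff_inv,
      ← PowerSeries.coeff_zero_eq_constantCoeff_apply, hR, inv_one]
  have hone : ∀ b : BB, PowerSeries.coeff 0 (F b) = 1 := by
    intro b
    have h3 := h.top b
    rw [h.good b b.2] at h3
    exact h3
  have hF' : ∀ b : BB, IsType R⁻¹ ((-lam b : ℝ) : ℂ) (F b) := by
    intro b
    have h1 := isType_normal hR (h.odd b) (h.zero b)
    rw [hone b, inv_one, map_one, one_mul] at h1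
    exact h1
  let ψ : {d | k d = n + 1} → Fin (n + 1) → ℂ := fun d l => PowerSeries.coeff (l : ℕ) (F d)
  let 𝓐 : Submodule ℂ (Fin (n + 1) → ℂ) := Submodule.span ℂ (Set.range ψ)
  let T : (Fin (n + 1) → ℂ) →ₗ[ℂ] Module.Dual ℂ 𝓐 :=
    { toFun := fun v =>
        { toFun := fun b => ∑ l, v l * (b : Fin (n + 1) → ℂ) l
          map_add' := by
            intro a b
            simp only [Submodule.coe_add, Pi.add_apply, mul_add, Finset.sum_add_distrib]
          map_smul' := by
            intro c a
            simp only [Submodule.coe_smul, Pi.smul_apply, smul_eq_mul, RingHom.id_apply,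
              Finset.mul_sum]
            exact Finset.sum_congr rfl fun l _ => by ring }
      map_add' := by
        intro a b
        ext c
        simp only [Pi.add_apply, add_mul, Finset.sum_add_distrib, LinearMap.coe_mk,
          AddHom.coe_mk, LinearMap.add_apply]
      map_smul' := by
        intro c a
        ext b
        simp only [Pi.smul_apply, smul_eq_mul, RingHom.id_apply, LinearMap.coe_mk,
          AddHom.coe_mk, LinearMap.smul_apply, Finset.mul_sum]
        exact Finset.sum_congr rfl fun l _ => by ring }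
  have hkerle : LinearMap.ker T ≤ Λ := by
    intro v hv
    refine hL v fun d hd => ?_
    have h1 : T v ⟨ψ ⟨d, hd⟩, Submodule.subset_span ⟨⟨d, hd⟩, rfl⟩⟩ = 0 := by
      rw [LinearMap.mem_ker.1 hv]; rfl
    exact h1
  have hxinv : Tendsto (fun i : BB => ((-lam i : ℝ) : ℂ)⁻¹) cofinite (𝓝 0) := by
    rw [tendsto_zero_iff_norm_tendsto_zero]
    simp only [norm_inv]
    exact tendsto_inv_atTop_zero.comp hx'
  let ΛB : Submodule ℂ (Fin (n + 1 + 1) → ℂ) :=
    { carrier := {φ | φ 0 = 0 ∧ Tendsto (fun i : BB => ((-lam i : ℝ) : ℂ)⁻¹ *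
        ∑ l : Fin (n + 1 + 1), φ l * PowerSeries.coeff (l : ℕ) (F i)) cofinite (𝓝 0)}
      add_mem' := by
        rintro a b ⟨ha0, ha⟩ ⟨hb0, hb⟩
        refine ⟨by rw [Pi.add_apply, ha0, hb0, add_zero], ?_⟩
        have h1 := ha.add hb
        rw [add_zero] at h1
        refine h1.congr fun i => ?_
        simp only [Pi.add_apply, add_mul, Finset.sum_add_distrib]
        ring
      zero_mem' := by
        refine ⟨rfl, ?_⟩
        simp
      smul_mem' := by
        rintro c a ⟨ha0, ha⟩
        refine ⟨by rw [Pi.smul_apply, ha0, smul_zero], ?_⟩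
        have h1 := ha.const_mul c
        rw [mul_zero] at h1
        refine h1.congr fun i => ?_
        simp only [Pi.smul_apply, smul_eq_mul, mul_assoc, ← Finset.mul_sum]
        ring }
  have hΛB : Module.finrank ℂ ΛB ≤ (n + 1) / 2 :=
    finrank_le_half_bounded hR' hx' hF' (n + 1) ΛB (fun φ hφ => hφ.1) (fun φ hφ => hφ.2)
  let S0 : (Fin (n + 1) → ℂ) →ₗ[ℂ] (Fin (n + 1 + 1) → ℂ) :=
    { toFun := fun v => Fin.cons 0 (fun j : Fin (n + 1) => v (Fin.rev j))
      map_add' := by
        intro a b
        funext j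
        refine Fin.cases ?_ (fun j => ?_) j
        · simp
        · simp
      map_smul' := by
        intro c a
        funext j
        refine Fin.cases ?_ (fun j => ?_) j
        · simp
        · simp }
  have hS0inj : Function.Injective S0 := by
    intro a b hab
    funext j
    have h1 := congrFun hab (Fin.succ (Fin.rev j))
    simpa [S0] using h1
  have hmap : 𝓐.map S0 ≤ ΛB := by
    rw [Submodule.map_span_le]
    rintro _ ⟨⟨d, hd⟩, rfl⟩
    have hd' : k d = n + 1 := hd
    refine ⟨by simp [S0], ?_⟩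
    have hkey : ∀ b : BB, ∑ l : Fin (n + 1 + 1), S0 (ψ ⟨d, hd⟩) l *
        PowerSeries.coeff (l : ℕ) (F b)
        = PowerSeries.coeff (n + 1) (F d * F b) - PowerSeries.coeff (n + 1) (F d) := by
      intro b
      rw [PowerSeries.coeff_mul, Finset.Nat.sum_antidiagonal_eq_sum_range_succ
        (fun a b' => PowerSeries.coeff a (F d) * PowerSeries.coeff b' (F b)) (n + 1),
        Finset.sum_range_succ, Nat.sub_self, hone b, mul_one,
        Finset.sum_range, add_sub_cancel_right]
      rw [Fin.sum_univ_succ]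
      simp only [S0, LinearMap.coe_mk, AddHom.coe_mk, Fin.cons_zero, zero_mul, zero_add,
        Fin.cons_succ]
      rw [← Equiv.sum_comp Fin.revPerm]
      refine Finset.sum_congr rfl fun j _ => ?_
      rw [Fin.revPerm_apply, Fin.rev_rev]
      congr 2
      rw [Fin.val_succ, Fin.val_rev]
      have := j.2
      congr 1
      omega
    simp only [hkey]
    obtain ⟨B, hB⟩ := h.pair d
    have hbd : Tendsto (fun i : BB => ‖((-lam i : ℝ) : ℂ)‖⁻¹ *
        (B + ‖PowerSeries.coeff (n + 1) (F d)‖)) cofinite (𝓝 0) := by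
      have h1 : Tendsto (fun i : BB => ‖((-lam i : ℝ) : ℂ)‖⁻¹) cofinite (𝓝 0) :=
        tendsto_inv_atTop_zero.comp hx'
      have h2 := h1.mul_const (B + ‖PowerSeries.coeff (n + 1) (F d)‖)
      rwa [zero_mul] at h2
    refine squeeze_zero_norm (fun i => ?_) hbd
    obtain ⟨b, hb⟩ := i
    have hb' : k b = 0 := h.good b hb
    have hab : b ≠ d := by
      rintro rfl
      omega
    have h1 := hB b hb hab
    rw [hd', hb', add_zero] at h1
    rw [norm_mul, norm_inv]
    have h4 : 0 ≤ ‖((-lam b : ℝ) : ℂ)‖⁻¹ := by positivity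
    refine mul_le_mul_of_nonneg_left ?_ h4
    exact (norm_sub_le _ _).trans (by gcongr)
  have hfin : Module.finrank ℂ 𝓐 ≤ Module.finrank ℂ ΛB := by
    have h1 : Module.finrank ℂ (𝓐.map S0) = Module.finrank ℂ 𝓐 :=
      (LinearEquiv.finrank_eq (Submodule.equivMapOfInjective S0 hS0inj 𝓐)).symm
    rw [← h1]
    exact Submodule.finrank_mono hmap
  have h1 := LinearMap.finrank_range_add_finrank_ker T
  have h2 : Module.finrank ℂ (LinearMap.range T) ≤ Module.finrank ℂ 𝓐 := by
    refine (Submodule.finrank_le _).trans ?_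
    rw [Subspace.dual_finrank_eq]
  have h3 := Submodule.finrank_mono hkerle
  rw [Module.finrank_fin_fun] at h1
  omega

end W92892c
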